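import Pool.Agent.Helper270.WP

set_option autoImplicit false

/-! The group of a machine, and the connectedness of its configurations. -/

namespace Pool.Agent.R554.CE

open Pool.Agent.Helper270.WPA Pool.Agent.Helper270.WP

/-- The generators of the machine group. -/
inductive UG (P ι : Type) : Type
  | x (j : Bool)
  | t (p : P)
  | r (i : ι)

variable {P ι : Type}

/-- The generators in the free group. -/
def ux (j : Bool) : FreeGroup (UG P ι) := FreeGroup.of (.x j)
def ut (p : P) : FreeGroup (UG P ι) := FreeGroup.of (.t p)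
def ur (i : ι) : FreeGroup (UG P ι) := FreeGroup.of (.r i)

/-- The relators of the machine group. -/
def urels (D : Rules P ι) : Set (FreeGroup (UG P ι)) :=
  {ux false * ux true * (ux false)⁻¹ * (ux true)⁻¹} ∪
  Set.range (fun i => ur i * Tw ux ut (D.src i) (D.r i) * (ur i)⁻¹ *
    (Tw ux ut (D.tgt i) (D.b i))⁻¹) ∪
  Set.range (fun ij : ι × Bool => ur ij.1 * ux ij.2 ^ D.m ij.1 ij.2 * (ur ij.1)⁻¹ *
    (ux ij.2 ^ D.a ij.1 ij.2)⁻¹)

/-- The machine group. -/
abbrev UU (D : Rules P ι) : Type := PresentedGroup (urels D)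

/-- One rule is applied. -/
def Step (D : Rules P ι) (c c' : P × V) : Prop :=
  ∃ (i : ι) (u : V), c = (D.src i, D.m i * u + D.r i) ∧ c' = (D.tgt i, D.a i * u + D.b i)

/-- The configurations are connected. -/
def Conn (D : Rules P ι) : P × V → P × V → Prop := Relation.EqvGen (Step D)

/-- The configuration of a number. -/
def cfg (p0 : P) (N : ℕ) : P × V := (p0, fun j => if j then (N : ℤ) else 0)

end Pool.Agent.R554.CE
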