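import Mathlib
import Pool.Agent.Y43.CH.Syll

set_option autoImplicit false

/-! Torsion in a free product of two finite cyclic groups. -/

namespace Pool.Agent.R554.CE

open Monoid

/-- The finite cyclic group. -/
abbrev Z (n : ℕ) : Type := Multiplicative (ZMod n)

/-- The trivial maps. -/
def tm (q : Bool → ℕ) (b : Bool) : Unit →* Z (q b) := 1

/-- The free product of two finite cyclic groups. -/
abbrev FP (q : Bool → ℕ) : Type := PushoutI (tm q)

/-- The canonical inclusions. -/
noncomputable def inj (q : Bool → ℕ) (b : Bool) : Z (q b) →* FP q :=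
  PushoutI.of (φ := tm q) b

/-- The projection to the product. -/
noncomputable def prj (q : Bool → ℕ) : FP q →* (∀ b, Z (q b)) :=
  PushoutI.lift (φ := tm q) (fun b => MonoidHom.mulSingle (fun b => Z (q b)) b) 1 (by
    intro b; ext; simp [tm])

theorem prj_inj (q : Bool → ℕ) (b : Bool) (x : Z (q b)) : prj q (inj q b x) = Pi.mulSingle b x := by
  unfold prj inj
  rw [PushoutI.lift_of]
  rfl

theorem prj_inj_same (q : Bool → ℕ) (b : Bool) (x : Z (q b)) : prj q (inj q b x) b = x := by
  rw [prj_inj]; simp

theorem prj_inj_ne (q : Bool → ℕ) (b b' : Bool) (h : b' ≠ b) (x : Z (q b)) :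
    prj q (inj q b x) b' = 1 := by
  rw [prj_inj]; simp [h]

/-- A torsion element projects trivially to one of the factors. -/
theorem fp_torsion (q : Bool → ℕ) (x : FP q) (n : ℕ) (hn : n ≠ 0) (hx : x ^ n = 1) :
    prj q x true = 1 ∨ prj q x false = 1 := by
  obtain ⟨c, b, y, h, -⟩ := Pool.Agent.Y43.CH.amalg_torsion
    (φ := tm q) (by
      intro b a a' _
      exact Subsingleton.elim _ _) x n hn hx
  have key : ∀ b', b' ≠ b → prj q x b' = 1 := by
    intro b' hb
    have := prj_inj_ne q b b' hb y
    unfold inj at this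
    rw [h, map_mul, map_mul, Pi.mul_apply, Pi.mul_apply, this, mul_one, ← Pi.mul_apply,
      ← map_mul, mul_inv_cancel, map_one, Pi.one_apply]
  cases b
  · exact Or.inl (key true (by simp))
  · exact Or.inr (key false (by simp))

end Pool.Agent.R554.CE
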