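import Mathlib
import Pool.Agent.R554.CE.Free

set_option autoImplicit false

/-! Rigidity of marked groups. -/

namespace Pool.Agent.R554.CE

section Shift

variable {U Q : Type} [Group U] [Group Q]

/-- Left shift of functions. -/
def sh : U →* MulAut (U → Q) where
  toFun u :=
    { toFun := fun f v => f (u⁻¹ * v)
      invFun := fun f v => f (u * v)
      left_inv := fun f => by funext v; simp
      right_inv := fun f => by funext v; simp
      map_mul' := fun f g => rfl }
  map_one' := by
    apply MulEquiv.ext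
    intro f
    funext v
    simp
  map_mul' u w := by
    apply MulEquiv.ext
    intro f
    funext v
    simp [mul_assoc]

theorem sh_apply (u : U) (f : U → Q) (v : U) : sh u f v = f (u⁻¹ * v) := rfl

end Shift

variable {U I : Type} [Group U]

/-- The relations of the marks. -/
structure MRel (p : I → ℕ) (S : I → Set U) (T : Set (I × I × U)) {K : Type} [Group K]
    (f : U →* K) (b : I → K) : Prop where
  ord : ∀ i, b i ^ p i = 1
  cen : ∀ i, ∀ s ∈ S i, b i * f s = f s * b i
  tie : ∀ i j w, (i, j, w) ∈ T → b i * (f w * b j * (f w)⁻¹) = (f w * b j * (f w)⁻¹) * b i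

/-- The group with marks. -/
structure IsMk (p : I → ℕ) (S : I → Set U) (T : Set (I × I × U)) {G : Type} [Group G]
    (ι : U →* G) (a : I → G) : Prop where
  rel : MRel p S T ι a
  univ : ∀ (K : Type) [Group K] (f : U →* K) (b : I → K), MRel p S T f b →
    ∃ F : G →* K, (∀ u, F (ι u) = f u) ∧ ∀ i, F (a i) = b i
  ext : ∀ (K : Type) [Group K] (F F' : G →* K), (∀ u, F (ι u) = F' (ι u)) →
    (∀ i, F (a i) = F' (a i)) → F = F'

namespace IsMk

variable {p : I → ℕ} {S : I → Set U} {T : Set (I × I × U)} {G : Type} [Group G]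
  {ι : U →* G} {a : I → G}

/-- The retraction. -/
theorem exists_ret (h : IsMk p S T ι a) : ∃ π : G →* U, (∀ u, π (ι u) = u) ∧ ∀ i, π (a i) = 1 :=
  h.univ U (MonoidHom.id U) (fun _ => 1) ⟨fun i => one_pow _, fun i s _ => by simp, fun i j w _ => by simp⟩

/-- The main homomorphisms. -/
theorem exists_Phi (h : IsMk p S T ι a) (Q : Type) [Group Q] (f : I → U → Q)
    (f1 : ∀ i v, f i v ^ p i = 1) (f2 : ∀ i, ∀ s ∈ S i, ∀ v, f i (s⁻¹ * v) = f i v)
    (f3 : ∀ i j w, (i, j, w) ∈ T → ∀ v, f i v * f j (w⁻¹ * v) = f j (w⁻¹ * v) * f i v) :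
    ∃ Φ : G →* (U → Q) ⋊[sh] U, (∀ u, Φ (ι u) = SemidirectProduct.inr u) ∧
      ∀ i, Φ (a i) = SemidirectProduct.inl (f i) := by
  refine h.univ _ SemidirectProduct.inr (fun i => SemidirectProduct.inl (f i)) ⟨?_, ?_, ?_⟩
  · intro i
    rw [← map_pow]
    have : f i ^ p i = 1 := by funext v; exact f1 i v
    rw [this, map_one]
  · intro i s hs
    have h1 : sh s (f i) = f i := by
      funext v; exact f2 i s hs v
    have h2 := SemidirectProduct.inl_aut (φ := (sh : U →* MulAut (U → Q))) s (f i)
    rw [h1] at h2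
    rw [eq_comm, ← mul_inv_eq_iff_eq_mul, ← map_inv]
    exact h2.symm
  · intro i j w hw
    have h2 := SemidirectProduct.inl_aut (φ := (sh : U →* MulAut (U → Q))) w (f j)
    rw [← map_inv, ← h2, ← map_mul, ← map_mul]
    congr 1
    funext v
    exact f3 i j w hw v

/-- The right component is the retraction. -/
theorem Phi_right (h : IsMk p S T ι a) {π : G →* U} (hπ : (∀ u, π (ι u) = u) ∧ ∀ i, π (a i) = 1)
    {Q : Type} [Group Q] {f : I → U → Q} {Φ : G →* (U → Q) ⋊[sh] U}
    (h1 : ∀ u, Φ (ι u) = SemidirectProduct.inr u) (h2 : ∀ i, Φ (a i) = SemidirectProduct.inl (f i))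
    (g : G) : (Φ g).right = π g := by
  have := h.ext U (SemidirectProduct.rightHom.comp Φ) π
    (by intro u; simp [h1, hπ.1]) (by intro i; simp [h2, hπ.2])
  exact DFunLike.congr_fun this g

end IsMk

section Left

variable {Q : Type} [Group Q]

theorem left_mul (x y : (U → Q) ⋊[sh (U := U)] U) (hx : x.right = 1) (v : U) :
    (x * y).left v = x.left v * y.left v := by
  rw [SemidirectProduct.mul_left, hx, map_one]
  rfl

/-- evaluation on the kernel of the retraction -/
theorem left_pow (x : (U → Q) ⋊[sh (U := U)] U) (hx : x.right = 1) (v : U) (n : ℕ) :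
    (x ^ n).left v = x.left v ^ n := by
  induction n with
  | zero => simp
  | succ n ih => rw [pow_succ', pow_succ', left_mul _ _ hx, ih]

theorem left_conj (k x : (U → Q) ⋊[sh (U := U)] U) (hx : x.right = 1) (v : U) :
    (k * x * k⁻¹).left v = k.left v * x.left (k.right⁻¹ * v) * (k.left v)⁻¹ := by
  have h1 : (k * x * k⁻¹).left = k.left * sh k.right x.left * k.left⁻¹ := by
    rw [SemidirectProduct.mul_left, SemidirectProduct.mul_left, SemidirectProduct.inv_left,
      SemidirectProduct.mul_right, hx, mul_one]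
    congr 1
    rw [← MulAut.mul_apply, ← map_mul, mul_inv_cancel, map_one]
    rfl
  rw [h1]
  rfl

/-- Functoriality for maps commuting with the shift. -/
def fmap {Q Q' : Type} [Group Q] [Group Q'] (ψ : (U → Q) →* (U → Q'))
    (hψ : ∀ w f, ψ (sh w f) = sh w (ψ f)) : (U → Q) ⋊[sh (U := U)] U →* (U → Q') ⋊[sh (U := U)] U :=
  SemidirectProduct.map ψ (MonoidHom.id U) (by
    intro w
    ext1 f
    exact hψ w f)

theorem fmap_left {Q Q' : Type} [Group Q] [Group Q'] (ψ : (U → Q) →* (U → Q'))
    (hψ : ∀ w f, ψ (sh w f) = sh w (ψ f)) (x : (U → Q) ⋊[sh (U := U)] U) :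
    (fmap ψ hψ x).left = ψ x.left := rfl

theorem fmap_inl {Q Q' : Type} [Group Q] [Group Q'] (ψ : (U → Q) →* (U → Q'))
    (hψ : ∀ w f, ψ (sh w f) = sh w (ψ f)) (f : U → Q) :
    fmap ψ hψ (SemidirectProduct.inl f) = SemidirectProduct.inl (ψ f) := by
  simp [fmap]

theorem fmap_inr {Q Q' : Type} [Group Q] [Group Q'] (ψ : (U → Q) →* (U → Q'))
    (hψ : ∀ w f, ψ (sh w f) = sh w (ψ f)) (w : U) :
    fmap ψ hψ (SemidirectProduct.inr w) = SemidirectProduct.inr w := by
  simp [fmap]

/-- Right translation. -/
def rt {Q : Type} [Group Q] (u : U) : (U → Q) →* (U → Q) where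
  toFun f z := f (z * u)
  map_one' := rfl
  map_mul' _ _ := rfl

/-- Composition with a homomorphism. -/
def po {Q Q' : Type} [Group Q] [Group Q'] (γ : Q →* Q') : (U → Q) →* (U → Q') where
  toFun f z := γ (f z)
  map_one' := by funext z; simp
  map_mul' _ _ := by funext z; simp

theorem po_sh {Q Q' : Type} [Group Q] [Group Q'] (γ : Q →* Q') (w : U) (f : U → Q) :
    po γ (sh w f) = sh w (po γ f) := rfl

theorem rt_sh {Q : Type} [Group Q] (u : U) (w : U) (f : U → Q) :
    rt u (sh w f) = sh w (rt u f) := by
  funext z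
  simp [rt, sh_apply, mul_assoc]

end Left

section Ind

open Classical

/-- Indicator. -/
noncomputable def ind {Q : Type} [Group Q] (A : U → Prop) (x : Q) : U → Q :=
  fun v => if A v then x else 1

theorem ind_pos {Q : Type} [Group Q] {A : U → Prop} {x : Q} {v : U} (h : A v) : ind A x v = x :=
  if_pos h

theorem ind_neg {Q : Type} [Group Q] {A : U → Prop} {x : Q} {v : U} (h : ¬ A v) : ind A x v = 1 :=
  if_neg h

/-- the generator -/
def gn (n : ℕ) : Z n := Multiplicative.ofAdd 1

theorem gn_pow (n : ℕ) : gn n ^ n = 1 := by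
  unfold gn
  rw [← ofAdd_nsmul]
  simp

theorem Z_pow {n : ℕ} (x : Z n) : x ^ n = 1 := by
  obtain ⟨y, rfl⟩ := Multiplicative.ofAdd.surjective x
  rw [← ofAdd_nsmul]
  simp

theorem gn_ne {n : ℕ} (hn : n.Prime) : gn n ≠ 1 := by
  have := Fact.mk hn
  have : Fact (1 < n) := ⟨hn.one_lt⟩
  unfold gn
  intro h
  have h1 : (1 : ZMod n) = 0 := h
  exact one_ne_zero h1

variable {p : I → ℕ} {S : I → Set U} {T : Set (I × I × U)} {G : Type} [Group G]
  {ι : U →* G} {a : I → G}

/-- the specification of the scalar hom -/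
def ScSpec (p : I → ℕ) (S : I → Set U) {G : Type} [Group G] (ι : U →* G) (a : I → G) (i : I)
    (Φ : G →* (U → Z (p i)) ⋊[sh (U := U)] U) : Prop :=
  (∀ u, Φ (ι u) = SemidirectProduct.inr u) ∧ ∀ j, Φ (a j) = SemidirectProduct.inl
        (if j = i then ind (· ∈ Subgroup.closure (S i)) (gn (p i)) else 1)

theorem exists_scal (h : IsMk p S T ι a) (hT : ∀ i j w, (i, j, w) ∈ T → i ≠ j) (i : I) :
    ∃ Φ : G →* (U → Z (p i)) ⋊[sh (U := U)] U, ScSpec p S ι a i Φ := by
  unfold ScSpec
  refine h.exists_Phi _ _ ?_ ?_ ?_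
  · intro j v
    by_cases hj : j = i
    · subst hj
      exact Z_pow _
    · simp [hj]
  · intro j s hs v
    by_cases hj : j = i
    · subst hj
      simp only [if_true]
      unfold ind
      have : s⁻¹ * v ∈ Subgroup.closure (S j) ↔ v ∈ Subgroup.closure (S j) :=
        Subgroup.mul_mem_cancel_left _ (inv_mem (Subgroup.subset_closure hs))
      simp only [this]
    · simp [hj]
  · intro j k w hw v
    have := hT j k w hw
    by_cases hj : j = i
    · have hk : k ≠ i := fun h => this (hj.trans h.symm)
      simp [hk]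
    · simp [hj]

/-- the two orders -/
def qq (p : I → ℕ) (i j : I) (b : Bool) : ℕ := bif b then p i else p j

/-- the projection at a factor -/
noncomputable def gam (q : Bool → ℕ) (b : Bool) : FP q →* Z (q b) :=
  (Pi.evalMonoidHom (fun b => Z (q b)) b).comp (prj q)

theorem gam_inj_same (q : Bool → ℕ) (b : Bool) (x : Z (q b)) : gam q b (inj q b x) = x :=
  prj_inj_same q b x

theorem gam_inj_ne (q : Bool → ℕ) (b b' : Bool) (h : b' ≠ b) (x : Z (q b)) :
    gam q b' (inj q b x) = 1 := prj_inj_ne q b b' h x

/-- the projections with simplified types -/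
noncomputable def prT (p : I → ℕ) (i j : I) : FP (qq p i j) →* Z (p i) := gam (qq p i j) true
noncomputable def prF (p : I → ℕ) (i j : I) : FP (qq p i j) →* Z (p j) := gam (qq p i j) false

/-- the inclusions with simplified types -/
noncomputable def inT (p : I → ℕ) (i j : I) : Z (p i) →* FP (qq p i j) := inj (qq p i j) true
noncomputable def inF (p : I → ℕ) (i j : I) : Z (p j) →* FP (qq p i j) := inj (qq p i j) false

theorem gt_it (p : I → ℕ) (i j : I) (x : Z (p i)) : prT p i j (inT p i j x) = x :=
  gam_inj_same (qq p i j) true x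
theorem gf_jf (p : I → ℕ) (i j : I) (x : Z (p j)) : prF p i j (inF p i j x) = x :=
  gam_inj_same (qq p i j) false x
theorem gt_jf (p : I → ℕ) (i j : I) (x : Z (p j)) : prT p i j (inF p i j x) = 1 :=
  gam_inj_ne (qq p i j) false true (by simp) x
theorem gf_it (p : I → ℕ) (i j : I) (x : Z (p i)) : prF p i j (inT p i j x) = 1 :=
  gam_inj_ne (qq p i j) true false (by simp) x

/-- the specification of the hom to the free product -/
def TwoSpec (p : I → ℕ) (S : I → Set U) {G : Type} [Group G] (ι : U →* G) (a : I → G) (i j : I)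
    (u v : U) (Φ : G →* (U → FP (qq p i j)) ⋊[sh (U := U)] U) : Prop :=
  (∀ u, Φ (ι u) = SemidirectProduct.inr u) ∧ ∀ k, Φ (a k) = SemidirectProduct.inl
        ((if k = i then ind (fun z => z * u ∈ Subgroup.closure (S i)) (inT p i j (gn _)) else 1) *
        (if k = j then ind (fun z => z * v ∈ Subgroup.closure (S j)) (inF p i j (gn _)) else 1))

/-- The hom to the free product of two cyclic groups. -/
theorem exists_two [LinearOrder I] (h : IsMk p S T ι a) (hT : ∀ i j w, (i, j, w) ∈ T → i < j)
    (i j : I) (hij : i ≤ j) (u v : U)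
    (h1 : i = j → u⁻¹ * v ∉ Subgroup.closure (S i))
    (h2 : ∀ w, (i, j, w) ∈ T → ∀ z, z * u ∈ Subgroup.closure (S i) →
      w⁻¹ * z * v ∈ Subgroup.closure (S j) → False) :
    ∃ Φ : G →* (U → FP (qq p i j)) ⋊[sh (U := U)] U, TwoSpec p S ι a i j u v Φ := by
  have hmem : ∀ (k : I) (s : U), s ∈ S k → ∀ z, s⁻¹ * z ∈ Subgroup.closure (S k) ↔
      z ∈ Subgroup.closure (S k) := fun k s hs z =>
    Subgroup.mul_mem_cancel_left _ (inv_mem (Subgroup.subset_closure hs))
  unfold TwoSpec
  refine h.exists_Phi _ _ ?_ ?_ ?_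
  · intro k z
    have e1 : (inT p i j (gn _)) ^ p i = 1 := by rw [← map_pow, gn_pow, map_one]
    have e2 : (inF p i j (gn _)) ^ p j = 1 := by rw [← map_pow, gn_pow, map_one]
    by_cases hki : k = i
    · by_cases hkj : k = j
      · have hij' : i = j := hki.symm.trans hkj
        subst hki
        subst hij'
        simp only [if_true, Pi.mul_apply]
        by_cases hz : z * u ∈ Subgroup.closure (S k)
        · have hz' : z * v ∉ Subgroup.closure (S k) := by
            intro hz'
            apply h1 rfl
            have := mul_mem (inv_mem hz) hz'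
            have e : (z * u)⁻¹ * (z * v) = u⁻¹ * v := by group
            rwa [e] at this
          rw [ind_pos (A := fun z => z * u ∈ Subgroup.closure (S k)) hz,
            ind_neg (A := fun z => z * v ∈ Subgroup.closure (S k)) hz', mul_one, e1]
        · rw [ind_neg (A := fun z => z * u ∈ Subgroup.closure (S k)) hz, one_mul]
          unfold ind
          split_ifs
          · exact e2
          · exact one_pow _
      · subst hki
        simp only [if_true, Pi.mul_apply, hkj, if_false, Pi.one_apply, mul_one]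
        unfold ind
        split_ifs
        · exact e1
        · exact one_pow _
    · by_cases hkj : k = j
      · subst hkj
        simp only [if_true, Pi.mul_apply, hki, if_false, Pi.one_apply, one_mul]
        unfold ind
        split_ifs
        · exact e2
        · exact one_pow _
      · simp [hki, hkj]
  · intro k s hs z
    have e1 : ∀ (k' : I), k = k' → ∀ (x : FP (qq p i j)) (u : U),
        ind (fun z => z * u ∈ Subgroup.closure (S k')) x (s⁻¹ * z) =
        ind (fun z => z * u ∈ Subgroup.closure (S k')) x z := by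
      intro k' hk' x u
      subst hk'
      unfold ind
      have := hmem k s hs (z * u)
      rw [← mul_assoc] at this
      simp only [this]
    simp only [Pi.mul_apply]
    congr 1
    · by_cases hki : k = i
      · rw [if_pos hki]; exact e1 i hki _ _
      · simp [hki]
    · by_cases hkj : k = j
      · rw [if_pos hkj]; exact e1 j hkj _ _
      · simp [hkj]
  · intro k l w hw z
    have hkl := hT k l w hw
    simp only [Pi.mul_apply]
    by_cases hki : k = i
    · by_cases hlj : l = j
      · subst hki
        subst hlj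
        have hne : k ≠ l := hkl.ne
        simp only [if_true, hne, hne.symm, if_false, Pi.one_apply, mul_one, one_mul]
        by_cases hz : z * u ∈ Subgroup.closure (S k)
        · have hz' : w⁻¹ * z * v ∉ Subgroup.closure (S l) := fun hz' => h2 w hw z hz hz'
          rw [ind_neg (A := fun z => z * v ∈ Subgroup.closure (S l)) hz', mul_one, one_mul]
        · rw [ind_neg (A := fun z => z * u ∈ Subgroup.closure (S k)) hz, mul_one, one_mul]
      · have hli : l ≠ i := by rw [← hki]; exact hkl.ne'
        simp [hlj, hli]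
    · by_cases hkj : k = j
      · have hli : l ≠ i := by
          rintro rfl
          exact absurd (hkl.trans_le hij) (by rw [hkj]; exact lt_irrefl _)
        have hlj : l ≠ j := by rw [← hkj]; exact hkl.ne'
        simp [hli, hlj]
      · simp [hki, hkj]

theorem two_left_true (h : IsMk p S T ι a) (i j : I) (u v : U)
    {Φ : G →* (U → FP (qq p i j)) ⋊[sh (U := U)] U} (hΦ : TwoSpec p S ι a i j u v Φ)
    {Ψ : G →* (U → Z (p i)) ⋊[sh (U := U)] U} (hΨ : ScSpec p S ι a i Ψ) (g : G) :
    prT p i j ((Φ g).left 1) = (Ψ g).left u := by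
  obtain ⟨h1, h2⟩ := hΦ
  obtain ⟨h3, h4⟩ := hΨ
  have key : (fmap (U := U) (po (prT p i j)) (po_sh _)).comp Φ =
      (fmap (U := U) (rt (Q := Z (p i)) u) (rt_sh u)).comp Ψ := by
    apply h.ext
    · intro w
      rw [MonoidHom.comp_apply, MonoidHom.comp_apply, h1, h3, fmap_inr, fmap_inr]
    · intro k
      rw [MonoidHom.comp_apply, MonoidHom.comp_apply, h2, h4, fmap_inl, fmap_inl]
      congr 1
      funext z
      change prT p i j ((_ * _ : U → FP (qq p i j)) z) = _
      rw [Pi.mul_apply, map_mul]
      have e1 : prT p i j ((if k = j then ind (fun z => z * v ∈ Subgroup.closure (S j))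
          (inF p i j (gn _)) else 1) z) = 1 := by
        by_cases hk : k = j
        · rw [if_pos hk]
          unfold ind
          split_ifs
          · exact gt_jf _ _ _ _
          · exact map_one _
        · rw [if_neg hk]; exact map_one _
      rw [e1, mul_one]
      change _ = (if k = i then ind (· ∈ Subgroup.closure (S i)) (gn (p i)) else 1) (z * u)
      by_cases hk : k = i
      · rw [if_pos hk, if_pos hk]
        unfold ind
        split_ifs
        · exact gt_it _ _ _ _
        · exact map_one _
      · rw [if_neg hk, if_neg hk]; exact map_one _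
  have := DFunLike.congr_fun key g
  rw [MonoidHom.comp_apply, MonoidHom.comp_apply] at this
  have h5 := congrArg (fun x => x.left 1) this
  simp only [fmap_left] at h5
  change prT p i j ((Φ g).left 1) = (Ψ g).left (1 * u) at h5
  rw [one_mul] at h5
  exact h5

theorem two_left_false (h : IsMk p S T ι a) (i j : I) (u v : U)
    {Φ : G →* (U → FP (qq p i j)) ⋊[sh (U := U)] U} (hΦ : TwoSpec p S ι a i j u v Φ)
    {Ψ : G →* (U → Z (p j)) ⋊[sh (U := U)] U} (hΨ : ScSpec p S ι a j Ψ) (g : G) :
    prF p i j ((Φ g).left 1) = (Ψ g).left v := by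
  obtain ⟨h1, h2⟩ := hΦ
  obtain ⟨h3, h4⟩ := hΨ
  have key : (fmap (U := U) (po (prF p i j)) (po_sh _)).comp Φ =
      (fmap (U := U) (rt (Q := Z (p j)) v) (rt_sh v)).comp Ψ := by
    apply h.ext
    · intro w
      rw [MonoidHom.comp_apply, MonoidHom.comp_apply, h1, h3, fmap_inr, fmap_inr]
    · intro k
      rw [MonoidHom.comp_apply, MonoidHom.comp_apply, h2, h4, fmap_inl, fmap_inl]
      congr 1
      funext z
      change prF p i j ((_ * _ : U → FP (qq p i j)) z) = _
      rw [Pi.mul_apply, map_mul]
      have e1 : prF p i j ((if k = i then ind (fun z => z * u ∈ Subgroup.closure (S i))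
          (inT p i j (gn _)) else 1) z) = 1 := by
        by_cases hk : k = i
        · rw [if_pos hk]
          unfold ind
          split_ifs
          · exact gf_it _ _ _ _
          · exact map_one _
        · rw [if_neg hk]; exact map_one _
      rw [e1, one_mul]
      change _ = (if k = j then ind (· ∈ Subgroup.closure (S j)) (gn (p j)) else 1) (z * v)
      by_cases hk : k = j
      · rw [if_pos hk, if_pos hk]
        unfold ind
        split_ifs
        · exact gf_jf _ _ _ _
        · exact map_one _
      · rw [if_neg hk, if_neg hk]; exact map_one _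
  have := DFunLike.congr_fun key g
  rw [MonoidHom.comp_apply, MonoidHom.comp_apply] at this
  have h5 := congrArg (fun x => x.left 1) this
  simp only [fmap_left] at h5
  change prF p i j ((Φ g).left 1) = (Ψ g).left (1 * v) at h5
  rw [one_mul] at h5
  exact h5

/-- A torsion element in the kernel of the retraction cannot be nontrivial at both points. -/
theorem no_two [LinearOrder I] (h : IsMk p S T ι a) (hT : ∀ i j w, (i, j, w) ∈ T → i < j)
    {π : G →* U} (hπ : (∀ u, π (ι u) = u) ∧ ∀ i, π (a i) = 1)
    (i j : I) (hij : i ≤ j) (u v : U)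
    (h1 : i = j → u⁻¹ * v ∉ Subgroup.closure (S i))
    (h2 : ∀ w, (i, j, w) ∈ T → ∀ z, z * u ∈ Subgroup.closure (S i) →
      w⁻¹ * z * v ∈ Subgroup.closure (S j) → False)
    {Ψ : G →* (U → Z (p i)) ⋊[sh (U := U)] U} (hΨ : ScSpec p S ι a i Ψ)
    {Ψ' : G →* (U → Z (p j)) ⋊[sh (U := U)] U} (hΨ' : ScSpec p S ι a j Ψ')
    (g : G) (hg : π g = 1) (n : ℕ) (hn : n ≠ 0) (hgn : g ^ n = 1) :
    (Ψ g).left u = 1 ∨ (Ψ' g).left v = 1 := by
  obtain ⟨Φ, hΦ⟩ := exists_two h hT i j hij u v h1 h2
  have hr : (Φ g).right = 1 := by rw [h.Phi_right hπ hΦ.1 hΦ.2, hg]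
  have hp : ((Φ g).left 1) ^ n = 1 := by
    rw [← left_pow _ hr, ← map_pow, hgn, map_one]
    rfl
  rcases fp_torsion _ _ n hn hp with h3 | h3
  · left
    rw [← two_left_true h i j u v hΦ hΨ]
    exact h3
  · right
    rw [← two_left_false h i j u v hΦ hΨ']
    exact h3

end Ind

end Pool.Agent.R554.CE
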