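import Mathlib
import Pool.Agent.R554.CE.Rigid

set_option autoImplicit false

/-! Rigidity of marked groups: the main theorem. -/

namespace Pool.Agent.R554.CE

theorem eq_one_of_two {K : Type} [Group K] (x : K) {m n : ℕ} (hmn : Nat.Coprime m n)
    (h1 : x ^ m = 1) (h2 : x ^ n = 1) : x = 1 := by
  have h3 := Nat.dvd_gcd (orderOf_dvd_of_pow_eq_one h1) (orderOf_dvd_of_pow_eq_one h2)
  rw [hmn.gcd_eq_one] at h3
  exact orderOf_eq_one_iff.mp (Nat.dvd_one.mp h3)

theorem rigid {U I : Type} [Group U] [LinearOrder I] {p : I → ℕ} (hp : ∀ i, (p i).Prime)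
    (hpi : Function.Injective p)
    (hU : ∀ u : U, IsOfFinOrder u → u = 1) {S S' : I → Set U} {T T' : Set (I × I × U)}
    (hT : ∀ i j w, (i, j, w) ∈ T → i < j) (hT' : ∀ i j w, (i, j, w) ∈ T' → i < j)
    {G G' : Type} [Group G] [Group G'] {ι : U →* G} {a : I → G} {ι' : U →* G'} {a' : I → G'}
    (h : IsMk p S T ι a) (h' : IsMk p S' T' ι' a') (θ : G ≃* G') :
    ∃ (α : U →* U) (v : I → U), Function.Injective α ∧
      (∀ i, ∀ s ∈ S i, (v i)⁻¹ * α s * v i ∈ Subgroup.closure (S' i)) ∧
      ∀ i j w, (i, j, w) ∈ T → ∃ w', (i, j, w') ∈ T' ∧ ∃ z, z * v i ∈ Subgroup.closure (S' i) ∧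
        w'⁻¹ * z * (α w * v j) ∈ Subgroup.closure (S' j) := by
  obtain ⟨π, hπ⟩ := h.exists_ret
  obtain ⟨π', hπ'⟩ := h'.exists_ret
  have hcop : ∀ i j, i ≠ j → Nat.Coprime (p i) (p j) := fun i j hij =>
    (Nat.coprime_primes (hp i) (hp j)).mpr (fun h => hij (hpi h))
  have tors : ∀ (G G' : Type) [Group G] [Group G'] (σ : G ≃* G') (π' : G' →* U) (x : G) (n : ℕ),
      0 < n → x ^ n = 1 → π' (σ x) = 1 := by
    intro G G' _ _ σ π' x n hn hx
    apply hU
    rw [isOfFinOrder_iff_pow_eq_one]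
    exact ⟨n, hn, by rw [← map_pow, ← map_pow, hx, map_one, map_one]⟩
  have fin1 : ∀ i, π' (θ (a i)) = 1 := fun i => tors _ _ θ π' _ _ (hp i).pos (h.rel.ord i)
  have fin2 : ∀ i, π (θ.symm (a' i)) = 1 := fun i => tors _ _ θ.symm π _ _ (hp i).pos (h'.rel.ord i)
  let α : U →* U := π'.comp (θ.toMonoidHom.comp ι)
  let β : U →* U := π.comp (θ.symm.toMonoidHom.comp ι')
  have hα : ∀ u, π' (θ (ι u)) = α u := fun u => rfl
  have hβ : ∀ g, π (θ.symm g) = β (π' g) := by
    have := h'.ext U (π.comp θ.symm.toMonoidHom) (β.comp π')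
      (by intro u; simp [β, hπ'.1]) (by intro i; simp [hπ'.2, fin2])
    exact fun g => DFunLike.congr_fun this g
  have hinj : Function.Injective α := by
    have : ∀ u, β (α u) = u := by
      intro u
      rw [← hα, ← hβ, MulEquiv.symm_apply_apply, hπ.1]
    exact Function.LeftInverse.injective this
  have hTne' : ∀ i j w, (i, j, w) ∈ T' → i ≠ j := fun i j w hw => (hT' i j w hw).ne
  choose Ψ hΨ using fun i => exists_scal h' hTne' i
  have hr : ∀ i g, (Ψ i g).right = π' g := fun i g => h'.Phi_right hπ' (hΨ i).1 (hΨ i).2 g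
  -- values of torsion elements of foreign order
  have foreign : ∀ i j, i ≠ j → ∀ g : G', π' g = 1 → g ^ p j = 1 → ∀ v, (Ψ i g).left v = 1 := by
    intro i j hij g hg hgj v
    refine eq_one_of_two _ (hcop i j hij) (Z_pow _) ?_
    rw [← left_pow _ (by rw [hr, hg]), ← map_pow, hgj, map_one]
    rfl
  have ord1 : ∀ i, θ (a i) ^ p i = 1 := fun i => by rw [← map_pow, h.rel.ord, map_one]
  -- the supports are not empty
  have hA : ∀ i, ∃ v, (Ψ i (θ (a i))).left v ≠ 1 := by
    intro i
    by_contra hcon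
    push Not at hcon
    let Ξ : G →* (U → Z (p i)) ⋊[sh (U := U)] U := (Ψ i).comp θ.toMonoidHom
    have hΞ1 : ∀ j, Ξ (a j) = 1 := by
      intro j
      apply SemidirectProduct.ext
      · funext v
        by_cases hij : i = j
        · subst hij
          exact hcon v
        · exact foreign i j hij _ (fin1 j) (ord1 j) v
      · change (Ψ i (θ (a j))).right = 1
        rw [hr, fin1]
    have hΞ2 : ∀ g, Ξ g = Ξ (ι (π g)) := by
      have := h.ext _ Ξ (Ξ.comp (ι.comp π)) (by intro u; simp [hπ.1])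
        (by intro j; rw [hΞ1]; simp [hπ.2])
      exact fun g => DFunLike.congr_fun this g
    have h1 := hΞ2 (θ.symm (a' i))
    rw [fin2, map_one, map_one] at h1
    have h2 : Ψ i (a' i) = 1 := by
      rw [← h1]
      change _ = Ψ i (θ (θ.symm (a' i)))
      rw [MulEquiv.apply_symm_apply]
    rw [(hΨ i).2 i, if_pos rfl] at h2
    have h3 := congrArg (fun x => x.left 1) h2
    simp only [SemidirectProduct.left_inl] at h3
    rw [ind_pos (A := (· ∈ Subgroup.closure (S' i))) (one_mem _)] at h3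
    exact gn_ne (hp i) h3
  choose v hv using hA
  refine ⟨α, v, hinj, ?_, ?_⟩
  · intro i s hs
    by_contra hmem
    have h1 : (Ψ i (θ (a i))).left (α s * v i) ≠ 1 := by
      have e1 : θ (a i) = θ (ι s) * θ (a i) * (θ (ι s))⁻¹ := by
        rw [← map_mul, ← h.rel.cen i s hs, map_mul, mul_inv_cancel_right]
      have e2 : (Ψ i (θ (a i))).left (α s * v i) = (Ψ i (θ (a i))).left (v i) := by
        conv_lhs => rw [e1, map_mul, map_mul, map_inv]
        rw [left_conj _ _ (by rw [hr, fin1]), hr, hα]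
        rw [show (α s)⁻¹ * (α s * v i) = v i by group]
        rw [mul_comm, ← mul_assoc, inv_mul_cancel, one_mul]
      rw [e2]
      exact hv i
    have h2 := no_two h' hT' hπ' i i le_rfl (v i) (α s * v i) (fun _ => by
      rw [← mul_assoc]; exact hmem) (fun w hw => absurd (hT' i i w hw) (lt_irrefl _))
      (hΨ i) (hΨ i) (θ (a i)) (fin1 i) (p i) (hp i).ne_zero (ord1 i)
    rcases h2 with h2 | h2
    · exact hv i h2
    · exact h1 h2
  · intro i j w hw
    by_contra hcon
    have hij := hT i j w hw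
    set y : G' := θ (ι w * a j * (ι w)⁻¹) with hy
    have hy1 : π' y = 1 := by
      rw [hy, map_mul, map_mul, map_inv, map_mul, map_mul, map_inv, fin1, mul_one, mul_inv_cancel]
    have hy2 : y ^ p j = 1 := by
      rw [hy, ← map_pow, conj_pow, h.rel.ord, mul_one, mul_inv_cancel, map_one]
    have hcomm : Commute (θ (a i)) y := by
      have := h.rel.tie i j w hw
      have h2 := congrArg θ this
      rw [map_mul, map_mul θ (ι w * a j * (ι w)⁻¹)] at h2
      exact h2
    have hxy : (θ (a i) * y) ^ (p i * p j) = 1 := by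
      rw [hcomm.mul_pow, pow_mul, ord1, one_pow, one_mul, mul_comm, pow_mul, hy2, one_pow]
    have h2 := no_two h' hT' hπ' i j hij.le (v i) (α w * v j) (fun h => absurd h hij.ne)
      (fun w' hw' z hz1 hz2 => hcon ⟨w', hw', z, hz1, hz2⟩)
      (hΨ i) (hΨ j) (θ (a i) * y) (by rw [map_mul, fin1, hy1, one_mul]) (p i * p j)
      (mul_ne_zero (hp i).ne_zero (hp j).ne_zero) hxy
    rcases h2 with h2 | h2
    · rw [map_mul, left_mul _ _ (by rw [hr, fin1]),
        foreign i j hij.ne y hy1 hy2, mul_one] at h2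
      exact hv i h2
    · rw [map_mul, left_mul _ _ (by rw [hr, fin1]),
        foreign j i hij.ne' (θ (a i)) (fin1 i) (ord1 i), one_mul] at h2
      have e2 : (Ψ j y).left (α w * v j) = (Ψ j (θ (a j))).left (v j) := by
        rw [hy, map_mul, map_mul, map_inv, map_mul, map_mul, map_inv]
        rw [left_conj _ _ (by rw [hr, fin1]), hr, hα]
        rw [show (α w)⁻¹ * (α w * v j) = v j by group]
        rw [mul_comm, ← mul_assoc, inv_mul_cancel, one_mul]
      rw [e2] at h2
      exact hv j h2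

end Pool.Agent.R554.CE
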