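import Mathlib
import Pool.Agent.R554.CE.Rigid2

set_option autoImplicit false

/-! The five marks. -/

namespace Pool.Agent.R554.CE

variable {U : Type} [Group U]

/-- the orders of the marks -/
def pr5 : Fin 5 → ℕ := ![2, 3, 5, 7, 11]

/-- the centralized sets -/
def S5 (Sr : Set U) (t : U) : Fin 5 → Set U := ![∅, ∅, ∅, Sr, {t}]

/-- the ties -/
def T5 (X t : U) : Set (Fin 5 × Fin 5 × U) :=
  {(0, 1, 1), (0, 1, X), (0, 2, 1), (0, 2, t), (1, 2, 1), (0, 3, 1), (3, 4, 1)}

theorem pr5_prime (i : Fin 5) : (pr5 i).Prime := by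
  fin_cases i <;> simp [pr5] <;> norm_num

theorem pr5_inj : Function.Injective pr5 := by
  unfold pr5
  decide

theorem T5_lt (X t : U) (i j : Fin 5) (w : U) (h : (i, j, w) ∈ T5 X t) : i < j := by
  simp only [T5, Set.mem_insert_iff, Set.mem_singleton_iff, Prod.mk.injEq] at h
  rcases h with h | h | h | h | h | h | h <;> obtain ⟨rfl, rfl, -⟩ := h <;> decide

theorem rigid5 (hU : ∀ u : U, IsOfFinOrder u → u = 1) {X t : U} (hX : X ≠ 1) (ht : t ≠ 1)
    (hXt : X ≠ t) (Sr : Set U) {Tx Ty : U} (N : ℤ) (hTx : Tx = (X ^ N)⁻¹ * t * X ^ N)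
    {G G' : Type} [Group G] [Group G'] {ι : U →* G} {a : Fin 5 → G} {ι' : U →* G'} {a' : Fin 5 → G'}
    (h : IsMk pr5 (S5 Sr Tx) (T5 X t) ι a) (h' : IsMk pr5 (S5 Sr Ty) (T5 X t) ι' a')
    (θ : G ≃* G') :
    ∃ γ ∈ Subgroup.closure Sr, ∃ s ∈ Subgroup.closure {Ty}, Tx = γ * s * γ⁻¹ := by
  obtain ⟨α, v, hα, h1, h2⟩ := rigid pr5_prime pr5_inj hU (T5_lt X t) (T5_lt X t) h h' θ
  have m0 : ∀ z : U, z ∈ Subgroup.closure (S5 Sr Ty 0) ↔ z = 1 := by
    intro z; simp [S5, Subgroup.mem_bot]
  have m1 : ∀ z : U, z ∈ Subgroup.closure (S5 Sr Ty 1) ↔ z = 1 := by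
    intro z; simp [S5, Subgroup.mem_bot]
  have m2 : ∀ z : U, z ∈ Subgroup.closure (S5 Sr Ty 2) ↔ z = 1 := by
    intro z; simp [S5, Subgroup.mem_bot]
  have m3 : ∀ z : U, z ∈ Subgroup.closure (S5 Sr Ty 3) ↔ z ∈ Subgroup.closure Sr := by
    intro z; simp [S5]
  have m4 : ∀ z : U, z ∈ Subgroup.closure (S5 Sr Ty 4) ↔ z ∈ Subgroup.closure {Ty} := by
    intro z; simp [S5]
  -- the ties
  have t01 : ∀ w, (0, 1, w) ∈ T5 X t → α w * v 1 = v 0 ∨ α w * v 1 = v 0 * X := by
    intro w hw
    obtain ⟨w', hw', z, hz1, hz2⟩ := h2 0 1 w hw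
    rw [m0] at hz1
    rw [m1] at hz2
    have hz : z = (v 0)⁻¹ := eq_inv_of_mul_eq_one_left hz1
    have e : α w * v 1 = v 0 * w' := by
      rw [hz] at hz2
      have := eq_inv_of_mul_eq_one_right hz2
      rw [this]; group
    have : w' = 1 ∨ w' = X := by
      simp only [T5, Set.mem_insert_iff, Set.mem_singleton_iff, Prod.mk.injEq] at hw'
      rcases hw' with h | h | h | h | h | h | h
      · exact Or.inl h.2.2
      · exact Or.inr h.2.2
      all_goals exact absurd h.2.1 (by decide)
    rcases this with rfl | rfl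
    · left; rw [e, mul_one]
    · right; exact e
  have t02 : ∀ w, (0, 2, w) ∈ T5 X t → α w * v 2 = v 0 ∨ α w * v 2 = v 0 * t := by
    intro w hw
    obtain ⟨w', hw', z, hz1, hz2⟩ := h2 0 2 w hw
    rw [m0] at hz1
    rw [m2] at hz2
    have hz : z = (v 0)⁻¹ := eq_inv_of_mul_eq_one_left hz1
    have e : α w * v 2 = v 0 * w' := by
      rw [hz] at hz2
      have := eq_inv_of_mul_eq_one_right hz2
      rw [this]; group
    have : w' = 1 ∨ w' = t := by
      simp only [T5, Set.mem_insert_iff, Set.mem_singleton_iff, Prod.mk.injEq] at hw'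
      rcases hw' with h | h | h | h | h | h | h
      · exact absurd h.2.1 (by decide)
      · exact absurd h.2.1 (by decide)
      · exact Or.inl h.2.2
      · exact Or.inr h.2.2
      all_goals first | exact absurd h.1 (by decide) | exact absurd h.2.1 (by decide)
    rcases this with rfl | rfl
    · left; rw [e, mul_one]
    · right; exact e
  have t12 : v 2 = v 1 := by
    obtain ⟨w', hw', z, hz1, hz2⟩ := h2 1 2 1 (by simp [T5])
    rw [m1] at hz1
    rw [m2] at hz2
    have hz : z = (v 1)⁻¹ := eq_inv_of_mul_eq_one_left hz1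
    have : w' = 1 := by
      simp only [T5, Set.mem_insert_iff, Set.mem_singleton_iff, Prod.mk.injEq] at hw'
      rcases hw' with h | h | h | h | h | h | h
      · exact absurd h.1 (by decide)
      · exact absurd h.1 (by decide)
      · exact absurd h.1 (by decide)
      · exact absurd h.1 (by decide)
      · exact h.2.2
      · exact absurd h.1 (by decide)
      · exact absurd h.1 (by decide)
    rw [this, hz, map_one, one_mul, inv_one, one_mul] at hz2
    exact (inv_mul_eq_one.mp hz2).symm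
  have t03 : (v 0)⁻¹ * v 3 ∈ Subgroup.closure Sr := by
    obtain ⟨w', hw', z, hz1, hz2⟩ := h2 0 3 1 (by simp [T5])
    rw [m0] at hz1
    rw [m3] at hz2
    have hz : z = (v 0)⁻¹ := eq_inv_of_mul_eq_one_left hz1
    have : w' = 1 := by
      simp only [T5, Set.mem_insert_iff, Set.mem_singleton_iff, Prod.mk.injEq] at hw'
      rcases hw' with h | h | h | h | h | h | h
      · exact absurd h.2.1 (by decide)
      · exact absurd h.2.1 (by decide)
      · exact absurd h.2.1 (by decide)
      · exact absurd h.2.1 (by decide)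
      · exact absurd h.1 (by decide)
      · exact h.2.2
      · exact absurd h.1 (by decide)
    rw [this, hz, map_one, one_mul, inv_one, one_mul] at hz2
    exact hz2
  have t34 : ∃ z, z * v 3 ∈ Subgroup.closure Sr ∧ z * v 4 ∈ Subgroup.closure {Ty} := by
    obtain ⟨w', hw', z, hz1, hz2⟩ := h2 3 4 1 (by simp [T5])
    rw [m3] at hz1
    rw [m4] at hz2
    have : w' = 1 := by
      simp only [T5, Set.mem_insert_iff, Set.mem_singleton_iff, Prod.mk.injEq] at hw'
      rcases hw' with h | h | h | h | h | h | h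
      · exact absurd h.1 (by decide)
      · exact absurd h.1 (by decide)
      · exact absurd h.1 (by decide)
      · exact absurd h.1 (by decide)
      · exact absurd h.1 (by decide)
      · exact absurd h.1 (by decide)
      · exact h.2.2
    rw [this, map_one, one_mul, inv_one, one_mul] at hz2
    exact ⟨z, hz1, hz2⟩
  have v10 : v 1 = v 0 := by
    have a1 := t01 1 (by simp [T5])
    have a2 := t02 1 (by simp [T5])
    rw [map_one, one_mul] at a1 a2
    rcases a1 with a1 | a1
    · exact a1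
    · exfalso
      rw [t12, a1] at a2
      rcases a2 with a2 | a2
      · exact hX (by simpa using a2)
      · exact hXt (mul_left_cancel a2)
  have v20 : v 2 = v 0 := t12.trans v10
  have hαX : α X = v 0 * X * (v 0)⁻¹ := by
    have a1 := t01 X (by simp [T5])
    rw [v10] at a1
    rcases a1 with a1 | a1
    · exfalso
      apply hX
      apply hα
      rw [map_one]
      simpa using a1
    · rw [← a1]; group
  have hαt : α t = v 0 * t * (v 0)⁻¹ := by
    have a1 := t02 t (by simp [T5])
    rw [v20] at a1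
    rcases a1 with a1 | a1
    · exfalso
      apply ht
      apply hα
      rw [map_one]
      simpa using a1
    · rw [← a1]; group
  have hαT : α Tx = v 0 * Tx * (v 0)⁻¹ := by
    rw [hTx, map_mul, map_mul, map_inv, map_zpow, hαX, hαt, conj_zpow]
    group
  have h4 := h1 4 Tx (by simp [S5])
  rw [m4, hαT] at h4
  obtain ⟨z, hz1, hz2⟩ := t34
  refine ⟨(v 0)⁻¹ * v 3 * (z * v 3)⁻¹, mul_mem t03 (inv_mem hz1),
    (z * v 4) * ((v 4)⁻¹ * (v 0 * Tx * (v 0)⁻¹) * v 4) * (z * v 4)⁻¹,
    mul_mem (mul_mem hz2 h4) (inv_mem hz2), ?_⟩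
  group

end Pool.Agent.R554.CE
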