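import Mathlib
import Pool.Agent.R554.CE.Marks

set_option autoImplicit false

/-! Conjugate parameters give isomorphic marked groups. -/

namespace Pool.Agent.R554.CE

variable {U : Type} [Group U]

theorem comm_closure {K : Type} [Group K] (f : U →* K) (b : K) (S : Set U)
    (h : ∀ s ∈ S, b * f s = f s * b) (s : U) (hs : s ∈ Subgroup.closure S) :
    b * f s = f s * b := by
  induction hs using Subgroup.closure_induction with
  | mem x hx => exact h x hx
  | one => simp
  | mul x y _ _ hx hy =>
    rw [map_mul, ← mul_assoc, hx, mul_assoc, hy, mul_assoc]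
  | inv x _ hx =>
    have : Commute b (f x) := hx
    rw [map_inv]
    exact this.inv_right

theorem fwd_hom {X t : U} (Sr : Set U) {Tx Ty : U} {γ : U} (hγ : γ ∈ Subgroup.closure Sr)
    (hT : Tx = γ * Ty * γ⁻¹)
    {G G' : Type} [Group G] [Group G'] {ι : U →* G} {a : Fin 5 → G} {ι' : U →* G'} {a' : Fin 5 → G'}
    (h : IsMk pr5 (S5 Sr Tx) (T5 X t) ι a) (h' : IsMk pr5 (S5 Sr Ty) (T5 X t) ι' a') :
    ∃ F : G →* G', (∀ u, F (ι u) = ι' u) ∧ (∀ i, i ≠ 4 → F (a i) = a' i) ∧
      F (a 4) = ι' γ * a' 4 * (ι' γ)⁻¹ := by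
  have hb : ∀ i, i ≠ 4 → (if i = 4 then ι' γ * a' 4 * (ι' γ)⁻¹ else a' i) = a' i :=
    fun i hi => if_neg hi
  have hb4 : (if (4 : Fin 5) = 4 then ι' γ * a' 4 * (ι' γ)⁻¹ else a' 4) =
    ι' γ * a' 4 * (ι' γ)⁻¹ := if_pos rfl
  obtain ⟨F, hF1, hF2⟩ := h.univ G' ι' (fun i => if i = 4 then ι' γ * a' 4 * (ι' γ)⁻¹ else a' i) (by
    refine ⟨?_, ?_, ?_⟩
    · intro i
      by_cases hi : i = 4
      · subst hi
        simp only [if_true]
        rw [conj_pow, h'.rel.ord, mul_one, mul_inv_cancel]
      · simp only [hi, if_false]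
        exact h'.rel.ord i
    · intro i s hs
      by_cases hi : i = 4
      · subst hi
        simp only [if_true]
        have hs' : s = Tx := by simpa [S5] using hs
        have h2 := h'.rel.cen 4 Ty (by simp [S5])
        rw [hs', hT, map_mul, map_mul, map_inv]
        calc ι' γ * a' 4 * (ι' γ)⁻¹ * (ι' γ * ι' Ty * (ι' γ)⁻¹)
            = ι' γ * (a' 4 * ι' Ty) * (ι' γ)⁻¹ := by group
          _ = ι' γ * (ι' Ty * a' 4) * (ι' γ)⁻¹ := by rw [h2]
          _ = _ := by group
      · simp only [hi, if_false]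
        apply h'.rel.cen i
        revert hs
        fin_cases i <;> simp [S5] at hi ⊢
    · intro i j w hw
      have hij := T5_lt X t i j w hw
      have hi : i ≠ 4 := by
        rintro rfl
        have := j.2
        have h5 : (4 : ℕ) < (j : ℕ) := hij
        omega
      simp only [hi, if_false]
      by_cases hj : j = 4
      · subst hj
        simp only [if_true]
        have hiw : i = 3 ∧ w = 1 := by
          simp only [T5, Set.mem_insert_iff, Set.mem_singleton_iff, Prod.mk.injEq] at hw
          rcases hw with h | h | h | h | h | h | h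
          · exact absurd h.2.1 (by decide)
          · exact absurd h.2.1 (by decide)
          · exact absurd h.2.1 (by decide)
          · exact absurd h.2.1 (by decide)
          · exact absurd h.2.1 (by decide)
          · exact absurd h.2.1 (by decide)
          · exact ⟨h.1, h.2.2⟩
        obtain ⟨rfl, rfl⟩ := hiw
        have h2 := h'.rel.tie 3 4 1 (by simp [T5])
        have h3 := comm_closure ι' (a' 3) Sr (fun s hs => h'.rel.cen 3 s (by simpa [S5] using hs))
          γ hγ
        rw [map_one, one_mul, inv_one, mul_one] at h2 ⊢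
        have c1 : Commute (a' 3) (ι' γ) := h3
        have c2 : Commute (a' 3) (a' 4) := h2
        exact ((c1.mul_right c2).mul_right c1.inv_right)
      · simp only [hj, if_false]
        exact h'.rel.tie i j w hw)
  exact ⟨F, hF1, fun i hi => by rw [hF2, if_neg hi], by rw [hF2, if_pos rfl]⟩

theorem fwd {X t : U} (Sr : Set U) {Tx Ty : U} {γ : U} (hγ : γ ∈ Subgroup.closure Sr)
    (hT : Tx = γ * Ty * γ⁻¹)
    {G G' : Type} [Group G] [Group G'] {ι : U →* G} {a : Fin 5 → G} {ι' : U →* G'} {a' : Fin 5 → G'}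
    (h : IsMk pr5 (S5 Sr Tx) (T5 X t) ι a) (h' : IsMk pr5 (S5 Sr Ty) (T5 X t) ι' a') :
    Nonempty (G ≃* G') := by
  obtain ⟨F, f1, f2, f3⟩ := fwd_hom Sr hγ hT h h'
  obtain ⟨F', g1, g2, g3⟩ := fwd_hom Sr (inv_mem hγ) (Tx := Ty) (Ty := Tx)
    (by rw [hT]; group) h' h
  refine ⟨MonoidHom.toMulEquiv F F' ?_ ?_⟩
  · apply h.ext
    · intro u; simp [f1, g1]
    · intro i
      by_cases hi : i = 4
      · subst hi
        rw [MonoidHom.comp_apply, f3, map_mul, map_mul, map_inv, g1, g3, map_inv, MonoidHom.id_apply]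
        group
      · rw [MonoidHom.comp_apply, f2 i hi, g2 i hi]; rfl
  · apply h'.ext
    · intro u; simp [f1, g1]
    · intro i
      by_cases hi : i = 4
      · subst hi
        rw [MonoidHom.comp_apply, g3, ← map_inv ι, map_mul, map_mul, f1, f1, f3,
          MonoidHom.id_apply, inv_inv, map_inv]
        group
      · rw [MonoidHom.comp_apply, g2 i hi, f2 i hi]; rfl

end Pool.Agent.R554.CE
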