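import Mathlib
import Pool.Agent.R554.CE.Fwd

set_option autoImplicit false

/-! The presentation of a marked group. -/

namespace Pool.Agent.R554.CE

section

variable {A I : Type} (rels0 : Set (FreeGroup A)) (p : I → ℕ) (S0 : I → Set (FreeGroup A))
  (T0 : Set (I × I × FreeGroup A))

/-- the old generators -/
def gi : FreeGroup A →* FreeGroup (A ⊕ I) := FreeGroup.map Sum.inl

/-- the marks -/
def gm (i : I) : FreeGroup (A ⊕ I) := FreeGroup.of (Sum.inr i)

/-- The relators. -/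
def mrels : Set (FreeGroup (A ⊕ I)) :=
  (gi '' rels0) ∪ Set.range (fun i => gm i ^ p i) ∪
  {g | ∃ i, ∃ s ∈ S0 i, g = gm i * gi s * (gm i)⁻¹ * (gi s)⁻¹} ∪
  {g | ∃ i j w, (i, j, w) ∈ T0 ∧ g = gm i * (gi w * gm j * (gi w)⁻¹) * (gm i)⁻¹ *
    (gi w * gm j * (gi w)⁻¹)⁻¹}

theorem mk_gi_rel {r : FreeGroup A} (hr : r ∈ rels0) :
    PresentedGroup.mk (mrels rels0 p S0 T0) (gi r) = 1 :=
  PresentedGroup.one_of_mem (Or.inl (Or.inl (Or.inl ⟨r, hr, rfl⟩)))

/-- the map from the old group -/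
def iot : PresentedGroup rels0 →* PresentedGroup (mrels rels0 p S0 T0) :=
  QuotientGroup.lift _ ((PresentedGroup.mk (mrels rels0 p S0 T0)).comp gi) (by
    intro x hx
    have : Subgroup.normalClosure rels0 ≤ ((PresentedGroup.mk (mrels rels0 p S0 T0)).comp gi).ker :=
      Subgroup.normalClosure_le_normal (fun r hr => mk_gi_rel rels0 p S0 T0 hr)
    exact this hx)

theorem iot_mk (x : FreeGroup A) : iot rels0 p S0 T0 (PresentedGroup.mk rels0 x) =
    PresentedGroup.mk (mrels rels0 p S0 T0) (gi x) := rfl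

/-- the marks in the group -/
def mar (i : I) : PresentedGroup (mrels rels0 p S0 T0) := PresentedGroup.mk _ (gm i)

theorem isMk : IsMk p (fun i => PresentedGroup.mk rels0 '' S0 i)
    ((fun x : I × I × FreeGroup A => (x.1, x.2.1, PresentedGroup.mk rels0 x.2.2)) '' T0)
    (iot rels0 p S0 T0) (mar rels0 p S0 T0) := by
  refine ⟨⟨?_, ?_, ?_⟩, ?_, ?_⟩
  · intro i
    have : PresentedGroup.mk (mrels rels0 p S0 T0) (gm i ^ p i) = 1 :=
      PresentedGroup.one_of_mem (Or.inl (Or.inl (Or.inr ⟨i, rfl⟩)))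
    rw [map_pow] at this
    exact this
  · rintro i _ ⟨s, hs, rfl⟩
    have : PresentedGroup.mk (mrels rels0 p S0 T0) (gm i * gi s * (gm i)⁻¹ * (gi s)⁻¹) = 1 :=
      PresentedGroup.one_of_mem (Or.inl (Or.inr ⟨i, s, hs, rfl⟩))
    rw [map_mul, map_inv, mul_inv_eq_one, map_mul, map_inv, mul_inv_eq_iff_eq_mul, map_mul] at this
    exact this
  · rintro i j _ ⟨⟨i', j', w⟩, hw, he⟩
    simp only [Prod.mk.injEq] at he
    obtain ⟨rfl, rfl, rfl⟩ := he
    have : PresentedGroup.mk (mrels rels0 p S0 T0) (gm i' * (gi w * gm j' * (gi w)⁻¹) * (gm i')⁻¹ *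
      (gi w * gm j' * (gi w)⁻¹)⁻¹) = 1 :=
      PresentedGroup.one_of_mem (Or.inr ⟨i', j', w, hw, rfl⟩)
    rw [map_mul, map_inv, mul_inv_eq_one, map_mul, map_inv, mul_inv_eq_iff_eq_mul, map_mul,
      map_mul, map_mul, map_inv] at this
    exact this
  · intro K _ f b hfb
    let L : FreeGroup (A ⊕ I) →* K :=
      FreeGroup.lift (Sum.elim (fun x => f (PresentedGroup.mk rels0 (FreeGroup.of x))) b)
    have hL1 : ∀ x : FreeGroup A, L (gi x) = f (PresentedGroup.mk rels0 x) := by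
      have : L.comp gi = f.comp (PresentedGroup.mk rels0) := by
        apply FreeGroup.ext_hom
        intro x
        simp [L, gi]
      exact fun x => DFunLike.congr_fun this x
    have hL2 : ∀ i, L (gm i) = b i := by
      intro i
      simp [L, gm]
    have hker : Subgroup.normalClosure (mrels rels0 p S0 T0) ≤ L.ker := by
      apply Subgroup.normalClosure_le_normal
      rintro g (((⟨r, hr, rfl⟩ | ⟨i, rfl⟩) | ⟨i, s, hs, rfl⟩) | ⟨i, j, w, hw, rfl⟩)
      · rw [SetLike.mem_coe, MonoidHom.mem_ker, hL1, PresentedGroup.one_of_mem hr, map_one]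
      · rw [SetLike.mem_coe, MonoidHom.mem_ker, map_pow, hL2, hfb.ord]
      · rw [SetLike.mem_coe, MonoidHom.mem_ker, map_mul, map_inv, mul_inv_eq_one, map_mul, map_inv,
          mul_inv_eq_iff_eq_mul, map_mul, hL1, hL2]
        exact hfb.cen i _ ⟨s, hs, rfl⟩
      · rw [SetLike.mem_coe, MonoidHom.mem_ker, map_mul, map_inv, mul_inv_eq_one, map_mul, map_inv,
          mul_inv_eq_iff_eq_mul, map_mul, map_mul, map_mul, map_inv, hL1, hL2, hL2]
        exact hfb.tie i j _ ⟨(i, j, w), hw, rfl⟩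
    refine ⟨QuotientGroup.lift _ L hker, ?_, ?_⟩
    · intro u
      obtain ⟨x, rfl⟩ := QuotientGroup.mk'_surjective _ u
      exact hL1 x
    · intro i
      exact hL2 i
  · intro K _ F F' h1 h2
    apply PresentedGroup.ext
    rintro (x | i)
    · exact h1 (PresentedGroup.mk rels0 (FreeGroup.of x))
    · exact h2 i

end

end Pool.Agent.R554.CE
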