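import Mathlib
import Pool.Agent.R554.CE.Pres
import Pool.Agent.R554.CE.Defs
import Pool.Agent.Helper270.WPB

set_option autoImplicit false

/-! The marked machine groups. -/

namespace Pool.Agent.R554.CE

open Pool.Agent.Helper270.WPA Pool.Agent.Helper270.WP

variable {P ι : Type} (D : Rules P ι)

/-- the generators in the machine group -/
def gX (j : Bool) : UU D := PresentedGroup.mk _ (ux j)
def gT (p : P) : UU D := PresentedGroup.mk _ (ut p)
def gR (i : ι) : UU D := PresentedGroup.mk _ (ur i)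

/-- the rule letters -/
def Sr : Set (UU D) := Set.range (gR D)

/-- the element of a configuration -/
def Tc (c : P × V) : UU D := Tw (gX D) (gT D) c.1 c.2

theorem mk_Tw (p : P) (n : V) : PresentedGroup.mk (urels D) (Tw ux ut p n) = Tc D (p, n) := by
  rw [map_Tw]; rfl

theorem rel0 : gX D false * gX D true = gX D true * gX D false := by
  have := PresentedGroup.one_of_mem (rels := urels D) (x := ux false * ux true * (ux false)⁻¹ *
    (ux true)⁻¹) (Or.inl (Or.inl rfl))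
  rw [map_mul, map_inv, mul_inv_eq_one, map_mul, map_inv, mul_inv_eq_iff_eq_mul, map_mul] at this
  exact this

theorem rel1 (i : ι) : gR D i * Tw (gX D) (gT D) (D.src i) (D.r i) =
    Tw (gX D) (gT D) (D.tgt i) (D.b i) * gR D i := by
  have := PresentedGroup.one_of_mem (rels := urels D) (x := ur i * Tw ux ut (D.src i) (D.r i) *
    (ur i)⁻¹ * (Tw ux ut (D.tgt i) (D.b i))⁻¹) (Or.inl (Or.inr ⟨i, rfl⟩))
  rw [map_mul, map_inv, mul_inv_eq_one, map_mul, map_inv, mul_inv_eq_iff_eq_mul, map_mul,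
    map_Tw, map_Tw] at this
  exact this

theorem rel2 (i : ι) (j : Bool) : gR D i * gX D j ^ D.m i j = gX D j ^ D.a i j * gR D i := by
  have := PresentedGroup.one_of_mem (rels := urels D) (x := ur i * ux j ^ D.m i j *
    (ur i)⁻¹ * (ux j ^ D.a i j)⁻¹) (Or.inr ⟨(i, j), rfl⟩)
  rw [map_mul, map_inv, mul_inv_eq_one, map_mul, map_inv, mul_inv_eq_iff_eq_mul, map_mul,
    map_zpow, map_zpow] at this
  exact this

theorem step_conj {c c' : P × V} (h : Step D c c') :
    ∃ γ ∈ Subgroup.closure (Sr D), Tc D c = γ * Tc D c' * γ⁻¹ := by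
  obtain ⟨i, u, rfl, rfl⟩ := h
  have e2 : SemiconjBy (gR D i) (Xw (gX D) (D.m i * u)) (Xw (gX D) (D.a i * u)) := by
    have f1 : ∀ j, SemiconjBy (gR D i) (gX D j ^ (D.m i j * u j)) (gX D j ^ (D.a i j * u j)) := by
      intro j
      rw [zpow_mul, zpow_mul]
      exact SemiconjBy.zpow_right (rel2 D i j) (u j)
    exact (f1 false).mul_right (f1 true)
  have hT : ∀ (p : P) (w ρ : V), Tw (gX D) (gT D) p (w + ρ) =
      (Xw (gX D) w)⁻¹ * Tw (gX D) (gT D) p ρ * Xw (gX D) w := by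
    intro p w ρ
    have : Xw (gX D) (w + ρ) = Xw (gX D) ρ * Xw (gX D) w := by
      rw [add_comm, Xw_add (gX D) (rel0 D)]
    rw [Tw, Tw, this]; group
  have e3 : SemiconjBy (gR D i) (Tw (gX D) (gT D) (D.src i) (D.m i * u + D.r i))
      (Tw (gX D) (gT D) (D.tgt i) (D.a i * u + D.b i)) := by
    rw [hT, hT]
    exact (e2.inv_right.mul_right (rel1 D i)).mul_right e2
  refine ⟨(gR D i)⁻¹, inv_mem (Subgroup.subset_closure ⟨i, rfl⟩), ?_⟩
  unfold Tc
  simp only
  rw [inv_inv, mul_assoc, ← e3.eq]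
  group

theorem conn_conj {c c' : P × V} (h : Conn D c c') :
    ∃ γ ∈ Subgroup.closure (Sr D), Tc D c = γ * Tc D c' * γ⁻¹ := by
  induction h with
  | rel x y h => exact step_conj D h
  | refl x => exact ⟨1, one_mem _, by group⟩
  | symm x y _ ih =>
    obtain ⟨γ, hγ, h⟩ := ih
    exact ⟨γ⁻¹, inv_mem hγ, by rw [h]; group⟩
  | trans x y z _ _ ih1 ih2 =>
    obtain ⟨γ, hγ, h⟩ := ih1
    obtain ⟨γ', hγ', h'⟩ := ih2
    exact ⟨γ * γ', mul_mem hγ hγ', by rw [h, h']; group⟩

theorem conn_of_conj {c c' : P × V} {γ s : UU D} (hγ : γ ∈ Subgroup.closure (Sr D))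
    (hs : s ∈ Subgroup.closure {Tc D c'}) (h : Tc D c = γ * s * γ⁻¹) : Conn D c c' := by
  obtain ⟨Ω, x, t, R, o, m0, m1, m2, m3, m4⟩ := exists_model D (fun p n => Conn D (p, n) c') (by
    intro i u
    have h1 : Conn D (D.src i, D.m i * u + D.r i) (D.tgt i, D.a i * u + D.b i) :=
      Relation.EqvGen.rel _ _ ⟨i, u, rfl, rfl⟩
    constructor
    · intro h2; exact Relation.EqvGen.trans _ _ _ (Relation.EqvGen.symm _ _ h1) h2
    · intro h2; exact Relation.EqvGen.trans _ _ _ h1 h2)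
  let L : FreeGroup (UG P ι) →* Equiv.Perm Ω := FreeGroup.lift (fun g => match g with
    | .x j => x j
    | .t p => t p
    | .r i => R i)
  have Lx : ∀ j, L (ux j) = x j := fun j => FreeGroup.lift_apply_of
  have Lt : ∀ p, L (ut p) = t p := fun j => FreeGroup.lift_apply_of
  have Lr : ∀ i, L (ur i) = R i := fun j => FreeGroup.lift_apply_of
  have LT : ∀ p n, L (Tw ux ut p n) = Tw x t p n := by
    intro p n
    rw [map_Tw]
    simp only [Lx, Lt]
  have hle : Subgroup.normalClosure (urels D) ≤ L.ker := by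
    apply Subgroup.normalClosure_le_normal
    rintro w ((hw | ⟨i, rfl⟩) | ⟨⟨i, j⟩, rfl⟩)
    · rw [Set.mem_singleton_iff.mp hw, SetLike.mem_coe, MonoidHom.mem_ker]
      simp only [map_mul, map_inv, Lx]
      rw [mul_inv_eq_one, mul_inv_eq_iff_eq_mul, m0]
    · rw [SetLike.mem_coe, MonoidHom.mem_ker]
      simp only [map_mul, map_inv, Lr, LT]
      rw [mul_inv_eq_one, mul_inv_eq_iff_eq_mul, m1]
    · rw [SetLike.mem_coe, MonoidHom.mem_ker]
      simp only [map_mul, map_inv, map_zpow, Lr, Lx]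
      rw [mul_inv_eq_one, mul_inv_eq_iff_eq_mul, m2]
  let ξ : UU D →* Equiv.Perm Ω := QuotientGroup.lift _ L hle
  have ξT : ∀ c : P × V, ξ (Tc D c) = Tw x t c.1 c.2 := by
    rintro ⟨p, n⟩
    rw [← mk_Tw]
    exact LT p n
  let St : Subgroup (Equiv.Perm Ω) := MulAction.stabilizer (Equiv.Perm Ω) o
  have f1 : Subgroup.closure (Sr D) ≤ St.comap ξ := by
    rw [Subgroup.closure_le]
    rintro _ ⟨i, rfl⟩
    exact m3 i
  have f2 : Subgroup.closure {Tc D c'} ≤ St.comap ξ := by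
    rw [Subgroup.closure_le]
    rintro _ rfl
    rw [SetLike.mem_coe, Subgroup.mem_comap, ξT, MulAction.mem_stabilizer_iff]
    exact (m4 _ _).mpr (Relation.EqvGen.refl _)
  have f3 : Tc D c ∈ St.comap ξ := by
    rw [h]
    exact mul_mem (mul_mem (f1 hγ) (f2 hs)) (inv_mem (f1 hγ))
  rw [Subgroup.mem_comap, ξT, MulAction.mem_stabilizer_iff] at f3
  exact (m4 _ _).mp f3

theorem Tc_cfg (p0 : P) (N : ℕ) : Tc D (cfg p0 N) =
    (gX D true ^ (N : ℤ))⁻¹ * gT D p0 * gX D true ^ (N : ℤ) := by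
  simp [Tc, cfg, Tw, Xw]

/-- the centralized words -/
def S0 (p0 : P) (N : ℕ) : Fin 5 → Set (FreeGroup (UG P ι)) :=
  ![∅, ∅, ∅, Set.range ur, {Tw ux ut p0 (cfg p0 N).2}]

/-- the tie words -/
def T0 (p0 : P) : Set (Fin 5 × Fin 5 × FreeGroup (UG P ι)) :=
  {(0, 1, 1), (0, 1, ux true), (0, 2, 1), (0, 2, ut p0), (1, 2, 1), (0, 3, 1), (3, 4, 1)}

/-- the marked machine group -/
abbrev GG (p0 : P) (N : ℕ) : Type := PresentedGroup (mrels (urels D) pr5 (S0 p0 N) (T0 p0))

theorem isMk_GG (p0 : P) (N : ℕ) : IsMk pr5 (S5 (Sr D) (Tc D (cfg p0 N))) (T5 (gX D true) (gT D p0))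
    (iot (urels D) pr5 (S0 p0 N) (T0 p0)) (mar (urels D) pr5 (S0 p0 N) (T0 p0)) := by
  have h := isMk (urels D) pr5 (S0 p0 N) (T0 p0)
  have e1 : (fun i => PresentedGroup.mk (urels D) '' S0 p0 N i) =
      S5 (Sr D) (Tc D (cfg p0 N)) := by
    funext i
    fin_cases i
    · simp [S0, S5]
    · simp [S0, S5]
    · simp [S0, S5]
    · simp only [S0, S5, Sr]
      change PresentedGroup.mk (urels D) '' Set.range ur = Set.range (gR D)
      rw [← Set.range_comp]
      rfl
    · simp only [S0, S5]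
      change PresentedGroup.mk (urels D) '' {Tw ux ut p0 (cfg p0 N).2} = {Tc D (cfg p0 N)}
      rw [Set.image_singleton, mk_Tw]
      rfl
  have e2 : ((fun x : Fin 5 × Fin 5 × FreeGroup (UG P ι) =>
      (x.1, x.2.1, PresentedGroup.mk (urels D) x.2.2)) '' T0 p0) =
      T5 (gX D true) (gT D p0) := by
    simp only [T0, T5, Set.image_insert_eq, Set.image_singleton, map_one]
    rfl
  rw [e1, e2] at h
  exact h

theorem main_iff (hU : ∀ u : UU D, IsOfFinOrder u → u = 1) (p0 : P) (M N : ℕ) :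
    Conn D (cfg p0 M) (cfg p0 N) ↔ Nonempty (GG D p0 M ≃* GG D p0 N) := by
  constructor
  · intro h
    obtain ⟨γ, hγ, h⟩ := conn_conj D h
    exact fwd (Sr D) hγ h (isMk_GG D p0 M) (isMk_GG D p0 N)
  · rintro ⟨θ⟩
    by_contra hcon
    have key : Tc D (cfg p0 M) ≠ Tc D (cfg p0 N) := fun h =>
      hcon (conn_of_conj D (one_mem _) (Subgroup.subset_closure rfl) (γ := 1)
        (s := Tc D (cfg p0 N)) (by rw [h]; group))
    have hX : gX D true ≠ 1 := by
      intro h
      apply key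
      rw [Tc_cfg, Tc_cfg, h]
      simp
    have ht : gT D p0 ≠ 1 := by
      intro h
      apply key
      rw [Tc_cfg, Tc_cfg, h]
      simp
    have hXt : gX D true ≠ gT D p0 := by
      intro h
      apply key
      rw [Tc_cfg, Tc_cfg, ← h]
      group
    obtain ⟨γ, hγ, s, hs, h⟩ := rigid5 hU hX ht hXt (Sr D) M (Tc_cfg D p0 M)
      (isMk_GG D p0 M) (isMk_GG D p0 N) θ
    exact hcon (conn_of_conj D hγ hs h)

end Pool.Agent.R554.CE
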