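import Mathlib
import Pool.Agent.R554.CE.Grp

set_option autoImplicit false

/-! Codes of the marked machine groups. -/

namespace Pool.Agent.R554.CE

open Pool.Agent.Helper270.WPA Pool.Agent.Helper270.WP

section

variable {P ι : Type} (D : Rules P ι) (p0 : P)

/-- the generators as a sum -/
def ugEquiv (P ι : Type) : UG P ι ≃ (Bool ⊕ P ⊕ ι) where
  toFun g := match g with
    | .x j => .inl j
    | .t p => .inr (.inl p)
    | .r i => .inr (.inr i)
  invFun g := match g with
    | .inl j => .x j
    | .inr (.inl p) => .t p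
    | .inr (.inr i) => .r i
  left_inv g := by cases g <;> rfl
  right_inv g := by rcases g with j | p | i <;> rfl

instance [Finite P] [Finite ι] : Finite (UG P ι) := Finite.of_equiv _ (ugEquiv P ι).symm

/-- the relators not depending on the number -/
def fixr : Set (FreeGroup (UG P ι ⊕ Fin 5)) :=
  mrels (urels D) pr5 ![∅, ∅, ∅, Set.range ur, ∅] (T0 p0)

/-- the last relator -/
def w4 (N : ℕ) : FreeGroup (UG P ι ⊕ Fin 5) :=
  gm 4 * gi (Tw ux ut p0 (cfg p0 N).2) * (gm 4)⁻¹ * (gi (Tw ux ut p0 (cfg p0 N).2))⁻¹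

theorem mrels_eq (N : ℕ) : mrels (urels D) pr5 (S0 p0 N) (T0 p0) = fixr D p0 ∪ {w4 p0 N} := by
  ext g
  unfold fixr mrels
  simp only [Set.mem_union, Set.mem_ofPred_eq, Set.mem_singleton_iff]
  constructor
  · rintro (((h | h) | ⟨i, s, hs, rfl⟩) | h)
    · exact Or.inl (Or.inl (Or.inl (Or.inl h)))
    · exact Or.inl (Or.inl (Or.inl (Or.inr h)))
    · by_cases hi : i = 4
      · subst hi
        right
        have : s = Tw ux ut p0 (cfg p0 N).2 := by simpa [S0] using hs
        rw [this]
        rfl
      · refine Or.inl (Or.inl (Or.inr ⟨i, s, ?_, rfl⟩))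
        revert hs
        fin_cases i <;> simp [S0] at hi ⊢
    · exact Or.inl (Or.inr h)
  · rintro ((((h | h) | ⟨i, s, hs, rfl⟩) | h) | h)
    · exact Or.inl (Or.inl (Or.inl h))
    · exact Or.inl (Or.inl (Or.inr h))
    · refine Or.inl (Or.inr ⟨i, s, ?_, rfl⟩)
      revert hs
      fin_cases i <;> simp [S0]
    · exact Or.inr h
    · refine Or.inl (Or.inr ⟨4, Tw ux ut p0 (cfg p0 N).2, ?_, h⟩)
      simp [S0]

theorem urels_finite [Finite ι] : (urels D).Finite := by
  unfold urels
  exact ((Set.finite_singleton _).union (Set.finite_range _)).union (Set.finite_range _)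

theorem fixr_finite [Finite ι] : (fixr D p0).Finite := by
  unfold fixr mrels
  refine ((((urels_finite D).image _).union (Set.finite_range _)).union ?_).union ?_
  · have : {g : FreeGroup (UG P ι ⊕ Fin 5) | ∃ i, ∃ s ∈ (![∅, ∅, ∅, Set.range ur, ∅] :
        Fin 5 → Set (FreeGroup (UG P ι))) i, g = gm i * gi s * (gm i)⁻¹ * (gi s)⁻¹} ⊆
        ⋃ i : Fin 5, (fun s => gm i * gi s * (gm i)⁻¹ * (gi s)⁻¹) ''
          (![∅, ∅, ∅, Set.range ur, ∅] : Fin 5 → Set (FreeGroup (UG P ι))) i := by
      rintro g ⟨i, s, hs, rfl⟩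
      exact Set.mem_iUnion.mpr ⟨i, s, hs, rfl⟩
    refine Set.Finite.subset (Set.finite_iUnion ?_) this
    intro i
    apply Set.Finite.image
    fin_cases i
    · exact Set.finite_empty
    · exact Set.finite_empty
    · exact Set.finite_empty
    · exact Set.finite_range _
    · exact Set.finite_empty
  · have : {g : FreeGroup (UG P ι ⊕ Fin 5) | ∃ i j w, (i, j, w) ∈ T0 p0 ∧
        g = gm i * (gi w * gm j * (gi w)⁻¹) * (gm i)⁻¹ * (gi w * gm j * (gi w)⁻¹)⁻¹} ⊆
        (fun x : Fin 5 × Fin 5 × FreeGroup (UG P ι) => gm x.1 * (gi x.2.2 * gm x.2.1 *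
          (gi x.2.2)⁻¹) * (gm x.1)⁻¹ * (gi x.2.2 * gm x.2.1 * (gi x.2.2)⁻¹)⁻¹) '' T0 p0 := by
      rintro g ⟨i, j, w, hw, rfl⟩
      exact ⟨(i, j, w), hw, rfl⟩
    refine Set.Finite.subset (Set.Finite.image _ ?_) this
    unfold T0
    exact Set.toFinite _

end

/-- the values of the letters -/
def vl {n : ℕ} (q : Fin n × Bool) : ℕ × Bool := (q.1.val, q.2)

theorem filterMap_vl {n : ℕ} (w : List (Fin n × Bool)) :
    (w.map vl).filterMap (fun q => if h : q.1 < n then some ((⟨q.1, h⟩ : Fin n), q.2) else none) =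
      w := by
  induction w with
  | nil => rfl
  | cons q w ih =>
    rw [List.map_cons, List.filterMap_cons]
    have : (if h : (vl q).1 < n then some ((⟨(vl q).1, h⟩ : Fin n), (vl q).2) else none) =
        some q := by
      have hq : (vl q).1 < n := q.1.2
      rw [dif_pos hq]; rfl
    rw [this, ih]

theorem twl_vl {n : ℕ} (k t x : Fin n) (N : ℕ) :
    (twl k t x N).map vl = twl k.val t.val x.val N := by
  simp [twl, rep, vl, Function.comp_def]

theorem exists_code {P ι : Type} [Finite P] [Finite ι] (D : Rules P ι) (p0 : P) (N : ℕ → ℕ)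
    (hN : Computable N) : ∃ f : ℕ → ℕ × List (List (ℕ × Bool)), Computable f ∧
      ∀ x, Nonempty (PresentedGroup {g : FreeGroup (Fin (f x).1) | ∃ w ∈ (f x).2, g = FreeGroup.mk
            (w.filterMap (fun q => if h : q.1 < (f x).1 then some ((⟨q.1, h⟩ : Fin (f x).1), q.2)
              else none))} ≃* GG D p0 (N x)) := by
  classical
  obtain ⟨n, ⟨e⟩⟩ := Finite.exists_equiv_fin (UG P ι ⊕ Fin 5)
  let E := FreeGroup.freeGroupCongr e
  have hR' : (E '' fixr D p0).Finite := (fixr_finite D p0).image _
  let L0 : List (FreeGroup (Fin n)) := hR'.toFinset.toList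
  let L : List (List (ℕ × Bool)) := L0.map (fun g => g.toWord.map vl)
  let k := e (.inr 4)
  let t := e (.inl (.t p0))
  let x := e (.inl (.x true))
  refine ⟨fun i => (n, L ++ [twl k.val t.val x.val (N i)]), ?_, ?_⟩
  · have h1 := twl_computable k.val t.val x.val N hN
    have h2 : Computable (fun i => [twl k.val t.val x.val (N i)]) :=
      Computable.list_cons.comp h1 (Computable.const [])
    exact Computable.pair (Computable.const n) (Computable.list_append.comp (Computable.const L) h2)
  · intro i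
    have hset : {g : FreeGroup (Fin n) | ∃ w ∈ L ++ [twl k.val t.val x.val (N i)], g = FreeGroup.mk
            (w.filterMap (fun q => if h : q.1 < n then some ((⟨q.1, h⟩ : Fin n), q.2)
              else none))} = E '' (mrels (urels D) pr5 (S0 p0 (N i)) (T0 p0)) := by
      have hw4 : E (w4 p0 (N i)) = FreeGroup.mk (twl k t x (N i)) := by
        rw [mk_twl]
        simp [w4, E, k, t, x, gm, gi, Tw, Xw, cfg, ux, ut]
      rw [mrels_eq, Set.image_union, Set.image_singleton, hw4]
      ext g
      simp only [Set.mem_ofPred_eq, List.mem_append, List.mem_singleton, Set.mem_union,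
        Set.mem_singleton_iff]
      constructor
      · rintro ⟨w, hw | rfl, rfl⟩
        · left
          obtain ⟨g, hg, rfl⟩ := List.mem_map.mp hw
          rw [filterMap_vl, FreeGroup.mk_toWord]
          have : g ∈ hR'.toFinset := Finset.mem_toList.mp hg
          exact hR'.mem_toFinset.mp this
        · right
          rw [← twl_vl, filterMap_vl]
      · rintro (hg | rfl)
        · refine ⟨g.toWord.map vl, Or.inl (List.mem_map.mpr ⟨g, ?_, rfl⟩), ?_⟩
          · exact Finset.mem_toList.mpr (hR'.mem_toFinset.mpr hg)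
          · rw [filterMap_vl, FreeGroup.mk_toWord]
        · exact ⟨_, Or.inr rfl, by rw [← twl_vl, filterMap_vl]⟩
    change Nonempty (PresentedGroup {g : FreeGroup (Fin n) | ∃ w ∈ L ++ [twl k.val t.val x.val (N i)],
      g = FreeGroup.mk (w.filterMap (fun q => if h : q.1 < n then some ((⟨q.1, h⟩ : Fin n), q.2)
              else none))} ≃* GG D p0 (N i))
    rw [hset]
    exact ⟨(PresentedGroup.equivPresentedGroup _ e).symm⟩

end Pool.Agent.R554.CE
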