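import Pool.Agent.R554.CE.Defs
import Pool.Agent.Helper694.CS.J_hnn_tf

set_option autoImplicit false

/-! The machine group is torsion-free. -/

namespace Pool.Agent.R554.CE

open Pool.Agent.Helper270.WPA Pool.Agent.Helper270.WP

theorem V_tf (v : Multiplicative V) (h : IsOfFinOrder v) : v = 1 := by
  obtain ⟨n, hn, hv⟩ := isOfFinOrder_iff_pow_eq_one.1 h
  have h1 : n • v.toAdd = 0 := by
    rw [← toAdd_pow, hv, toAdd_one]
  have h2 : v.toAdd = 0 := by
    funext j
    have := congrFun h1 j
    simp only [Pi.smul_apply, Pi.zero_apply, smul_eq_zero] at this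
    rcases this with h3 | h3
    · omega
    · exact h3
  exact toAdd_eq_zero.mp h2

theorem G0_tf {P : Type} (g : G0 P) (h : IsOfFinOrder g) : g = 1 := by
  have h1 : g.right = 1 := by
    have := MonoidHom.isOfFinOrder (SemidirectProduct.rightHom (φ := φ P)) h
    exact V_tf _ this
  have h2 : g = SemidirectProduct.inl g.left := by
    apply SemidirectProduct.ext
    · simp
    · simp [h1]
  rw [h2] at h ⊢
  have h3 : IsOfFinOrder g.left :=
    (Function.Injective.isOfFinOrder_iff (f := (SemidirectProduct.inl (φ := φ P)))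
      SemidirectProduct.inl_injective).1 h
  have h4 : g.left = 1 := by
    by_contra hne
    exact not_isOfFinOrder_of_isMulTorsionFree hne h3
  rw [h4, map_one]

/-- One HNN extension. -/
theorem hnn_step {S M : Type} [Group S] [Group M] (α β : S →* M) (hα : Function.Injective α)
    (hβ : Function.Injective β) (htf : ∀ g : M, g ≠ 1 → ¬ IsOfFinOrder g) :
    ∃ (N : Type) (_ : Group N) (o : M →* N) (t : N), Function.Injective o ∧
      (∀ g : N, g ≠ 1 → ¬ IsOfFinOrder g) ∧ (∀ z, t * o (α z) = o (β z) * t) ∧
      (∀ (K : Type) [Group K] (g : M →* K) (k : K), (∀ z, k * g (α z) = g (β z) * k) →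
        ∃ h : N →* K, h.comp o = g ∧ h t = k) := by
  let A : Subgroup M := α.range
  let B : Subgroup M := β.range
  let ψ : A ≃* B := (MonoidHom.ofInjective hα).symm.trans (MonoidHom.ofInjective hβ)
  have hψ : ∀ z, ψ ⟨α z, z, rfl⟩ = ⟨β z, z, rfl⟩ := by
    intro z
    have h1 : (MonoidHom.ofInjective hα).symm ⟨α z, z, rfl⟩ = z := by
      rw [MulEquiv.symm_apply_eq]
      apply Subtype.ext
      simp [MonoidHom.ofInjective_apply]
    change (MonoidHom.ofInjective hβ) ((MonoidHom.ofInjective hα).symm ⟨α z, z, rfl⟩) = _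
    rw [h1]
    apply Subtype.ext
    simp [MonoidHom.ofInjective_apply]
  refine ⟨HNNExtension M A B ψ, inferInstance, HNNExtension.of, HNNExtension.t,
    HNNExtension.of_injective _, ?_, ?_, ?_⟩
  · intro g hg
    exact Pool.CS.hnn_tf ψ htf g hg
  · intro z
    have := HNNExtension.t_mul_of (φ := ψ) ⟨α z, z, rfl⟩
    rw [hψ] at this
    exact this
  · intro K _ g k hk
    have hx : ∀ a : A, k * g (a : M) = g (ψ a : M) * k := by
      rintro ⟨_, z, rfl⟩
      rw [hψ]
      exact hk z
    refine ⟨HNNExtension.lift g k hx, ?_, HNNExtension.lift_t _ _ _⟩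
    apply MonoidHom.ext
    intro x
    exact HNNExtension.lift_of (φ := ψ) g k hx x

/-- The tower of HNN extensions. -/
theorem tower {P ι : Type} (D : Rules P ι) (L : Finset ι) :
    ∃ (M : Type) (_ : Group M) (f : G0 P →* M) (s : ι → M),
      Function.Injective f ∧ (∀ g : M, g ≠ 1 → ¬ IsOfFinOrder g) ∧
      (∀ i ∈ L, ∀ z : G0 Unit, s i * f (jj (D.src i) (D.m i) (D.r i) z) =
        f (jj (D.tgt i) (D.a i) (D.b i) z) * s i) ∧
      (∀ (K : Type) [Group K] (g : G0 P →* K) (k : ι → K),
        (∀ i ∈ L, ∀ z : G0 Unit, k i * g (jj (D.src i) (D.m i) (D.r i) z) =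
          g (jj (D.tgt i) (D.a i) (D.b i) z) * k i) →
        ∃ h : M →* K, h.comp f = g ∧ ∀ i ∈ L, h (s i) = k i) := by
  classical
  induction L using Finset.induction_on with
  | empty =>
    refine ⟨G0 P, inferInstance, MonoidHom.id _, fun _ => 1, fun _ _ h => h, ?_, ?_, ?_⟩
    · intro g hg h
      exact hg (G0_tf g h)
    · intro i hi
      simp at hi
    · intro K _ g k _
      exact ⟨g, by ext x; rfl, fun i hi => by simp at hi⟩
  | insert i L hi ih =>
    obtain ⟨M, _, f, s, hf, htf, hrel, huniv⟩ := ih
    obtain ⟨N, _, o, t, ho, hNtf, ht, hN⟩ := hnn_step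
      (f.comp (jj (D.src i) (D.m i) (D.r i))) (f.comp (jj (D.tgt i) (D.a i) (D.b i)))
      (hf.comp (jj_injective _ _ _ (D.hm i))) (hf.comp (jj_injective _ _ _ (D.ha i))) htf
    refine ⟨N, inferInstance, o.comp f, Function.update (fun j => o (s j)) i t,
      ho.comp hf, hNtf, ?_, ?_⟩
    · intro j hj z
      by_cases hji : j = i
      · subst hji
        rw [Function.update_self]
        exact ht z
      · rw [Function.update_of_ne hji]
        have hjL : j ∈ L := by
          rcases Finset.mem_insert.1 hj with h | h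
          · exact absurd h hji
          · exact h
        have := congrArg o (hrel j hjL z)
        rw [map_mul, map_mul] at this
        exact this
    · intro K _ g k hk
      obtain ⟨h, hh1, hh2⟩ := huniv K g k (fun j hj z => hk j (Finset.mem_insert_of_mem hj) z)
      have hhf : ∀ x, h (f x) = g x := fun x => DFunLike.congr_fun hh1 x
      obtain ⟨h', hh3, hh4⟩ := hN K h (k i) (fun z => by
        simp only [MonoidHom.comp_apply, hhf]
        exact hk i (Finset.mem_insert_self _ _) z)
      have hho : ∀ x, h' (o x) = h x := fun x => DFunLike.congr_fun hh3 x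
      refine ⟨h', ?_, ?_⟩
      · apply MonoidHom.ext
        intro x
        simp only [MonoidHom.comp_apply, hho, hhf]
      · intro j hj
        by_cases hji : j = i
        · subst hji
          rw [Function.update_self]
          exact hh4
        · rw [Function.update_of_ne hji]
          have hjL : j ∈ L := by
            rcases Finset.mem_insert.1 hj with h | h
            · exact absurd h hji
            · exact h
          rw [hho]
          exact hh2 j hjL

section Words

variable {H : Type} [Group H]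

/-- Words in commuting letters. -/
def XH (x : Bool → H) (hx : x false * x true = x true * x false) : Multiplicative V →* H where
  toFun v := Xw x v.toAdd
  map_one' := by simp [Xw]
  map_mul' v w := by
    have hc : Commute (x false) (x true) := hx
    simp only [Xw, toAdd_mul, Pi.add_apply, zpow_add]
    have h1 : Commute (x false ^ w.toAdd false) (x true ^ v.toAdd true) :=
      (hc.zpow_left _).zpow_right _
    rw [mul_assoc, mul_assoc, ← mul_assoc (x false ^ w.toAdd false), h1.eq, mul_assoc]

theorem XH_apply (x : Bool → H) (hx : x false * x true = x true * x false)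
    (v : Multiplicative V) : XH x hx v = Xw x v.toAdd := rfl

theorem Xw_add (x : Bool → H) (hx : x false * x true = x true * x false) (u v : V) :
    Xw x (u + v) = Xw x u * Xw x v := by
  have := map_mul (XH x hx) (Multiplicative.ofAdd u) (Multiplicative.ofAdd v)
  rw [← ofAdd_add] at this
  exact this

theorem Xw_neg (x : Bool → H) (hx : x false * x true = x true * x false) (u : V) :
    Xw x (-u) = (Xw x u)⁻¹ := by
  have := map_inv (XH x hx) (Multiplicative.ofAdd u)
  rw [← ofAdd_neg] at this
  exact this

theorem Tw_add (x : Bool → H) (hx : x false * x true = x true * x false) {P : Type} (t : P → H)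
    (p : P) (u v : V) : Tw x t p (u + v) = (Xw x v)⁻¹ * Tw x t p u * Xw x v := by
  simp only [Tw, Xw_add x hx, mul_inv_rev, mul_assoc]

end Words

section Final

variable {P ι : Type}

/-- Letters in the machine group. -/
def gx (D : Rules P ι) (j : Bool) : UU D := PresentedGroup.of (.x j)
/-- Letters in the machine group. -/
def gt (D : Rules P ι) (p : P) : UU D := PresentedGroup.of (.t p)
/-- Letters in the machine group. -/
def gr (D : Rules P ι) (i : ι) : UU D := PresentedGroup.of (.r i)

theorem gx_comm (D : Rules P ι) : gx D false * gx D true = gx D true * gx D false := by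
  have h : (PresentedGroup.mk (urels D)) (ux false * ux true * (ux false)⁻¹ * (ux true)⁻¹) = 1 := by
    apply PresentedGroup.one_of_mem
    exact Or.inl (Or.inl rfl)
  simp only [map_mul, map_inv] at h
  have h2 : gx D false * gx D true * (gx D false)⁻¹ * (gx D true)⁻¹ = 1 := h
  rw [mul_inv_eq_one, mul_inv_eq_iff_eq_mul] at h2
  exact h2

theorem rel_T (D : Rules P ι) (i : ι) :
    gr D i * Tw (gx D) (gt D) (D.src i) (D.r i) = Tw (gx D) (gt D) (D.tgt i) (D.b i) * gr D i := by
  have h : (PresentedGroup.mk (urels D)) (ur i * Tw ux ut (D.src i) (D.r i) * (ur i)⁻¹ *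
    (Tw ux ut (D.tgt i) (D.b i))⁻¹) = 1 := by
    apply PresentedGroup.one_of_mem
    exact Or.inl (Or.inr ⟨i, rfl⟩)
  simp only [map_mul, map_inv, map_Tw] at h
  have h2 : gr D i * Tw (gx D) (gt D) (D.src i) (D.r i) * (gr D i)⁻¹ *
    (Tw (gx D) (gt D) (D.tgt i) (D.b i))⁻¹ = 1 := h
  rw [mul_inv_eq_one, mul_inv_eq_iff_eq_mul] at h2
  exact h2

theorem rel_x (D : Rules P ι) (i : ι) (j : Bool) :
    gr D i * gx D j ^ D.m i j = gx D j ^ D.a i j * gr D i := by
  have h : (PresentedGroup.mk (urels D)) (ur i * ux j ^ D.m i j * (ur i)⁻¹ *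
    (ux j ^ D.a i j)⁻¹) = 1 := by
    apply PresentedGroup.one_of_mem
    exact Or.inr ⟨(i, j), rfl⟩
  simp only [map_mul, map_inv, map_zpow] at h
  have h2 : gr D i * gx D j ^ D.m i j * (gr D i)⁻¹ * (gx D j ^ D.a i j)⁻¹ = 1 := h
  rw [mul_inv_eq_one, mul_inv_eq_iff_eq_mul] at h2
  exact h2

theorem rel_X (D : Rules P ι) (i : ι) (u : V) :
    gr D i * Xw (gx D) (D.m i * u) = Xw (gx D) (D.a i * u) * gr D i := by
  have key : ∀ (j : Bool) (c : ℤ), gr D i * gx D j ^ (D.m i j * c) =
      gx D j ^ (D.a i j * c) * gr D i := by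
    intro j c
    have h : SemiconjBy (gr D i) (gx D j ^ D.m i j) (gx D j ^ D.a i j) := rel_x D i j
    have := h.zpow_right c
    rw [← zpow_mul, ← zpow_mul] at this
    exact this
  simp only [Xw, Pi.mul_apply]
  rw [← mul_assoc, key false, mul_assoc, key true, mul_assoc]

/-- The base group maps to the machine group. -/
def g0 (D : Rules P ι) : G0 P →* UU D :=
  SemidirectProduct.lift (FreeGroup.lift (fun x : P × V => Tw (gx D) (gt D) x.1 x.2))
    (XH (gx D) (gx_comm D)) (by
      intro v
      apply FreeGroup.ext_hom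
      rintro ⟨p, n⟩
      simp only [MonoidHom.comp_apply, MulEquiv.coe_toMonoidHom, φ_of, FreeGroup.lift_apply_of,
        MulAut.conj_apply, XH_apply]
      rw [sub_eq_add_neg, Tw_add _ (gx_comm D), Xw_neg _ (gx_comm D), inv_inv])

theorem g0_inl (D : Rules P ι) (x : P × V) :
    g0 D (SemidirectProduct.inl (FreeGroup.of x)) = Tw (gx D) (gt D) x.1 x.2 := by simp [g0]

theorem g0_inr (D : Rules P ι) (v : V) :
    g0 D (SemidirectProduct.inr (Multiplicative.ofAdd v)) = Xw (gx D) v := by
  simp [g0, XH_apply]

theorem g0_rel (D : Rules P ι) (i : ι) (z : G0 Unit) :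
    gr D i * g0 D (jj (D.src i) (D.m i) (D.r i) z) =
      g0 D (jj (D.tgt i) (D.a i) (D.b i) z) * gr D i := by
  suffices h : ((MulAut.conj (gr D i)).toMonoidHom.comp
      ((g0 D).comp (jj (D.src i) (D.m i) (D.r i)))) =
      (g0 D).comp (jj (D.tgt i) (D.a i) (D.b i)) by
    have := DFunLike.congr_fun h z
    simp only [MonoidHom.comp_apply, MulEquiv.coe_toMonoidHom, MulAut.conj_apply] at this
    rw [mul_inv_eq_iff_eq_mul] at this
    exact this
  apply SemidirectProduct.hom_ext
  · apply FreeGroup.ext_hom
    rintro ⟨⟨⟩, u⟩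
    simp only [MonoidHom.comp_apply, MulEquiv.coe_toMonoidHom, MulAut.conj_apply, jj_inl, g0_inl]
    rw [mul_inv_eq_iff_eq_mul, add_comm (D.m i * u), add_comm (D.a i * u),
      Tw_add _ (gx_comm D), Tw_add _ (gx_comm D)]
    have h1 := rel_X D i u
    have h2 := rel_T D i
    have h1' : gr D i * (Xw (gx D) (D.m i * u))⁻¹ = (Xw (gx D) (D.a i * u))⁻¹ * gr D i := by
      rw [eq_inv_mul_iff_mul_eq, ← mul_assoc, ← h1, mul_assoc, mul_inv_cancel, mul_one]
    rw [← mul_assoc, ← mul_assoc, h1', mul_assoc _ (gr D i), h2, mul_assoc, mul_assoc, h1]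
    simp only [mul_assoc]
  · apply MonoidHom.ext
    intro v
    simp only [MonoidHom.comp_apply, MulEquiv.coe_toMonoidHom, MulAut.conj_apply]
    obtain ⟨v, rfl⟩ := Multiplicative.ofAdd.surjective v
    rw [jj_inr, jj_inr, g0_inr, g0_inr, mul_inv_eq_iff_eq_mul]
    exact rel_X D i v

/-- The machine group is torsion-free. -/
theorem UU_tf [Finite ι] (D : Rules P ι) (g : UU D) (hg : IsOfFinOrder g) : g = 1 := by
  classical
  haveI := Fintype.ofFinite ι
  obtain ⟨M, _, f, s, hf, htf, hrel, huniv⟩ := tower D Finset.univ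
  obtain ⟨h, hh1, hh2⟩ := huniv (UU D) (g0 D) (gr D) (fun i _ z => g0_rel D i z)
  have hhf : ∀ x, h (f x) = g0 D x := fun x => DFunLike.congr_fun hh1 x
  let x' : Bool → M := fun j =>
    f (SemidirectProduct.inr (Multiplicative.ofAdd (Pi.single j 1)))
  let t' : P → M := fun p => f (SemidirectProduct.inl (FreeGroup.of (p, 0)))
  have hz : ∀ j (c : ℤ), x' j ^ c =
      f (SemidirectProduct.inr (Multiplicative.ofAdd (c • Pi.single j 1))) := by
    intro j c
    rw [ofAdd_zsmul, map_zpow (SemidirectProduct.inr), map_zpow f]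
  have hX : ∀ n : V, Xw x' n = f (SemidirectProduct.inr (Multiplicative.ofAdd n)) := by
    intro n
    rw [Xw, hz, hz, ← map_mul f, ← map_mul (SemidirectProduct.inr), ← ofAdd_add]
    congr 3
    funext j
    cases j <;> simp
  have hT : ∀ p n, Tw x' t' p n = f (SemidirectProduct.inl (FreeGroup.of (p, n))) := by
    intro p n
    rw [Tw, hX, ← map_inv, ← map_mul, ← map_mul]
    congr 1
    have := SemidirectProduct.inl_aut (φ := φ P) (Multiplicative.ofAdd (-n))
      (FreeGroup.of (p, 0))
    rw [φ_of] at this
    rw [toAdd_ofAdd, sub_neg_eq_add, zero_add, ofAdd_neg, map_inv, inv_inv] at this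
    exact this.symm
  let F : UG P ι → M := fun y => match y with
    | .x j => x' j
    | .t p => t' p
    | .r i => s i
  have hF : ∀ r ∈ urels D, FreeGroup.lift F r = 1 := by
    have e1 : ∀ j, FreeGroup.lift F (ux j) = x' j := fun j => FreeGroup.lift_apply_of
    have e2 : ∀ p, FreeGroup.lift F (ut p) = t' p := fun p => FreeGroup.lift_apply_of
    have e3 : ∀ i, FreeGroup.lift F (ur i) = s i := fun i => FreeGroup.lift_apply_of
    rintro r ((rfl | ⟨i, rfl⟩) | ⟨⟨i, j⟩, rfl⟩)
    · simp only [map_mul, map_inv, e1]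
      rw [mul_inv_eq_one, mul_inv_eq_iff_eq_mul]
      simp only [x', ← map_mul, ← ofAdd_add]
      rw [add_comm]
    · simp only [map_mul, map_inv, map_Tw, e1, e2, e3]
      rw [mul_inv_eq_one, mul_inv_eq_iff_eq_mul, hT, hT]
      have := hrel i (Finset.mem_univ _) (SemidirectProduct.inl (FreeGroup.of ((), 0)))
      rw [jj_inl, jj_inl, mul_zero, mul_zero, zero_add, zero_add] at this
      exact this
    · simp only [map_mul, map_inv, map_zpow, e1, e3]
      rw [mul_inv_eq_one, mul_inv_eq_iff_eq_mul]
      have := hrel i (Finset.mem_univ _)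
        (SemidirectProduct.inr (Multiplicative.ofAdd (Pi.single j 1)))
      rw [jj_inr, jj_inr] at this
      have key : ∀ c : V, x' j ^ c j =
          f (SemidirectProduct.inr (Multiplicative.ofAdd (c * Pi.single j 1))) := by
        intro c
        rw [hz]
        congr 3
        funext k
        by_cases hk : k = j
        · subst hk; simp
        · simp [hk]
      rw [key, key]
      exact this
  let Ψ : UU D →* M := PresentedGroup.toGroup hF
  have hid : h.comp Ψ = MonoidHom.id (UU D) := by
    apply PresentedGroup.ext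
    intro y
    simp only [MonoidHom.comp_apply, MonoidHom.id_apply, Ψ, PresentedGroup.toGroup.of]
    rcases y with j | p | i
    · change h (f _) = _
      rw [hhf, g0_inr]
      change _ = gx D j
      cases j <;> simp [Xw]
    · change h (f _) = _
      rw [hhf, g0_inl]
      change _ = gt D p
      simp [Tw, Xw]
    · exact hh2 i (Finset.mem_univ _)
  have h1 : Ψ g = 1 := by
    by_contra hne
    exact htf _ hne (MonoidHom.isOfFinOrder Ψ hg)
  have h2 := DFunLike.congr_fun hid g
  simp only [MonoidHom.comp_apply, MonoidHom.id_apply] at h2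
  rw [← h2, h1, map_one]

end Final

end Pool.Agent.R554.CE
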